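import Mathlib
import Pool.Agent.Lib.PolyTime.TMComp
import Pool.Agent.Lib.PolyTime.PF

/-!
# Stable roommates with forbidden and forced edges; minimum 2CNF deletion
-/

namespace Pool.Agent.SRViol

open PolyTime (unary)

/-! ### Stable roommates with restricted edges -/

/-- An instance with vertex set `Fin n`: a simple graph, for every vertex `v` a strict total order
of its neighbours, given by the rank function `rk v` (smaller is better), a set `P` of forbidden
edges and a set `Q` of forced edges. -/
structure Inst (n : ℕ) where
  /-- the graph -/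
  G : SimpleGraph (Fin n)
  /-- `rk v u` is the rank of the neighbour `u` in the preference list of `v` -/
  rk : Fin n → Fin n → Fin n
  rk_inj : ∀ v u w, G.Adj v u → G.Adj v w → rk v u = rk v w → u = w
  /-- forbidden edges -/
  P : Finset (Sym2 (Fin n))
  /-- forced edges -/
  Q : Finset (Sym2 (Fin n))
  P_sub : ∀ e ∈ P, e ∈ G.edgeSet
  Q_sub : ∀ e ∈ Q, e ∈ G.edgeSet
  disj : Disjoint P Q

namespace Inst

variable {n : ℕ} (I : Inst n)

/-- `M` is a matching. -/
def IsMatching (M : Finset (Sym2 (Fin n))) : Prop :=
  (∀ e ∈ M, e ∈ I.G.edgeSet) ∧ ∀ v u w, s(v, u) ∈ M → s(v, w) ∈ M → u = w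

/-- `v` is unmatched in `M` or prefers its neighbour `u` to its partner in `M`. -/
def Wants (M : Finset (Sym2 (Fin n))) (v u : Fin n) : Prop :=
  ∀ w, s(v, w) ∈ M → I.rk v u < I.rk v w

/-- The edge `uv` blocks `M`. -/
def Blocks (M : Finset (Sym2 (Fin n))) (u v : Fin n) : Prop :=
  I.G.Adj u v ∧ s(u, v) ∉ M ∧ I.Wants M u v ∧ I.Wants M v u

/-- Stable matchings. -/
def IsStable (M : Finset (Sym2 (Fin n))) : Prop :=
  I.IsMatching M ∧ ∀ u v, ¬ I.Blocks M u v

/-- The number of violated constraints. -/
def cost (M : Finset (Sym2 (Fin n))) : ℕ := (M ∩ I.P).card + (I.Q \ M).card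

end Inst

/-- Row-by-row list of the entries of a matrix. -/
def table {n : ℕ} (f : Fin n → Fin n → ℕ) : List ℕ :=
  List.ofFn (fun k : Fin (n * n) => f k.divNat k.modNat)

open Classical in
/-- Encoding of an instance: `n`, the `n * n` matrix with entry `0` at non-adjacent pairs `(v, u)`
and entry `1 + rk v u` at adjacent pairs, and the `0`-`1` matrices of `P` and `Q`; numbers are
written in unary. -/
noncomputable def encodeInst {n : ℕ} (I : Inst n) : List Bool :=
  unary (n :: (table (fun v u => if I.G.Adj v u then 1 + (I.rk v u : ℕ) else 0) ++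
    (table (fun v u => if s(v, u) ∈ I.P then 1 else 0) ++
      table (fun v u => if s(v, u) ∈ I.Q then 1 else 0))))

/-- Encoding of a set of edges by its adjacency matrix, row by row. -/
def encodeMatching {n : ℕ} (M : Finset (Sym2 (Fin n))) : List Bool :=
  List.ofFn (fun k : Fin (n * n) => decide (s(k.divNat, k.modNat) ∈ M))

/-- `A` is a `ρ`-approximation algorithm (apart from its running time) for the problem of finding a
stable matching violating as few constraints as possible, on the instances that have a stable
matching and satisfy `0 < |Q| < |M|`. -/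
def ApproxSR (ρ : ℝ) (A : List Bool → List Bool) : Prop :=
  ∀ (n : ℕ) (I : Inst n), (∃ M, I.IsStable M) → 0 < I.Q.card →
    (∀ M, I.IsStable M → I.Q.card < M.card) →
    ∃ M, I.IsStable M ∧ A (encodeInst I) = encodeMatching M ∧
      ∀ M', I.IsStable M' → (I.cost M : ℝ) ≤ ρ * (I.cost M' : ℝ)

/-! ### Minimum 2CNF deletion -/

/-- Literals: `(i, true)` is the variable `i`, `(i, false)` its negation. -/
abbrev Lit (n : ℕ) := Fin n × Bool

/-- 2CNF formulas: lists of clauses with two literals. -/
abbrev CNF2 (n : ℕ) := List (Lit n × Lit n)

/-- The number of clauses of `φ` (with multiplicity) not satisfied by the assignment `z`. -/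
def unsat {n : ℕ} (φ : CNF2 n) (z : Fin n → Bool) : ℕ :=
  (Finset.univ.filter (fun j : Fin φ.length =>
    z (φ.get j).1.1 ≠ (φ.get j).1.2 ∧ z (φ.get j).2.1 ≠ (φ.get j).2.2)).card

/-- One-hot encoding of a literal: `2 * n` bits, the bit at position `2 * i` codes the variable `i`
and the bit at position `2 * i + 1` its negation. -/
def encodeLit {n : ℕ} (l : Lit n) : List Bool :=
  (List.range (2 * n)).map (fun k => decide (k = 2 * (l.1 : ℕ) + (if l.2 then 0 else 1)))

/-- Encoding of a formula: the number of variables in unary, then the one-hot codes of the literals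
of the clauses. -/
def encodeCNF {n : ℕ} (φ : CNF2 n) : List Bool :=
  unary [n] ++ φ.flatMap (fun c => encodeLit c.1 ++ encodeLit c.2)

/-- `B` is a `ρ`-approximation algorithm (apart from its running time) for minimum 2CNF deletion:
given a formula it outputs an assignment (variable `i` gets the value of the bit `i` of the output)
for which the number of unsatisfied clauses is at most `ρ` times the minimum. -/
def Approx2CNFDel (ρ : ℝ) (B : List Bool → List Bool) : Prop :=
  ∀ (n : ℕ) (φ : CNF2 n) (z : Fin n → Bool),
    (unsat φ (fun i => (B (encodeCNF φ)).getD i false) : ℝ) ≤ ρ * (unsat φ z : ℝ)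

/-- Functions on bit strings computable in polynomial time by Turing machines with finitely many
stacks (Mathlib's `Turing.TM2ComputableInPolyTime`). -/
def PolyTime (f : List Bool → List Bool) : Prop :=
  Nonempty (Turing.TM2ComputableInPolyTime (id : List Bool → List Bool)
    (id : List Bool → List Bool) f)

end Pool.Agent.SRViol
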