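import Mathlib

/-!
# The key lemma on two stable matchings

Matchings are described by involutions (fixed points = unmatched vertices).
-/

namespace Pool.Agent.SRViol

/-- Let `μ₀` be a perfect stable matching and `μ` a stable matching.  If `v` is unmatched in `μ` or
prefers `μ₀` to `μ`, then `v` is matched in `μ` and its partner prefers `μ` to `μ₀`. -/
theorem key {V : Type*} [Fintype V] (adj : V → V → Prop) (rk : V → V → ℕ)
    (symm : ∀ u v, adj u v → adj v u)
    (inj : ∀ v u w, adj v u → adj v w → rk v u = rk v w → u = w)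
    (μ₀ μ : V → V) (inv₀ : ∀ v, μ₀ (μ₀ v) = v) (inv : ∀ v, μ (μ v) = v)
    (adj₀ : ∀ v, adj v (μ₀ v)) (adjμ : ∀ v, μ v ≠ v → adj v (μ v))
    (st₀ : ∀ u v, adj u v → ¬ (rk u v < rk u (μ₀ u) ∧ rk v u < rk v (μ₀ v)))
    (st : ∀ u v, adj u v → ¬ ((μ u = u ∨ rk u v < rk u (μ u)) ∧ (μ v = v ∨ rk v u < rk v (μ v))))
    (v : V) (hv : μ v = v ∨ rk v (μ₀ v) < rk v (μ v)) :
    μ v ≠ v ∧ rk (μ v) v < rk (μ v) (μ₀ (μ v)) := by
  classical
  let X : Finset V := Finset.univ.filter (fun v => μ v ≠ v ∧ rk v (μ v) < rk v (μ₀ v))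
  let Y : Finset V := Finset.univ.filter (fun v => μ v = v ∨ rk v (μ₀ v) < rk v (μ v))
  have hXY : ∀ v ∈ X, μ v ∈ Y := by
    intro v hv
    simp only [X, Y, Finset.mem_filter, Finset.mem_univ, true_and] at hv ⊢
    obtain ⟨h1, h2⟩ := hv
    right
    have h3 := st₀ v (μ v) (adjμ v h1)
    have h4 : ¬ rk (μ v) v < rk (μ v) (μ₀ (μ v)) := fun h => h3 ⟨h2, h⟩
    rw [inv v]
    rcases Nat.lt_or_ge (rk (μ v) (μ₀ (μ v))) (rk (μ v) v) with h | h
    · exact h
    · exfalso
      have h5 : rk (μ v) (μ₀ (μ v)) = rk (μ v) v := by omega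
      have h6 := inj (μ v) _ _ (adj₀ _) (symm _ _ (adjμ v h1)) h5
      have h7 : μ₀ v = μ v := by rw [← inv₀ (μ v), h6]
      rw [h7] at h2
      omega
  have hYX : ∀ v ∈ Y, μ₀ v ∈ X := by
    intro v hv
    simp only [X, Y, Finset.mem_filter, Finset.mem_univ, true_and] at hv ⊢
    have h3 := st v (μ₀ v) (adj₀ v)
    have h4 : ¬ (μ (μ₀ v) = μ₀ v ∨ rk (μ₀ v) v < rk (μ₀ v) (μ (μ₀ v))) := fun h => h3 ⟨hv, h⟩
    push Not at h4
    refine ⟨h4.1, ?_⟩
    rw [inv₀ v]
    rcases Nat.lt_or_ge (rk (μ₀ v) (μ (μ₀ v))) (rk (μ₀ v) v) with h | h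
    · exact h
    · exfalso
      have h5 : rk (μ₀ v) (μ (μ₀ v)) = rk (μ₀ v) v := by omega
      have h6 := inj (μ₀ v) _ _ (adjμ _ h4.1) (symm _ _ (adj₀ v)) h5
      have h7 : μ v = μ₀ v := by rw [← inv (μ₀ v), h6]
      rcases hv with hv | hv
      · rw [hv] at h7
        apply h4.1
        rw [← h7, hv]
      · rw [h7] at hv
        omega
  have injμ : Function.Injective μ := fun a b h => by rw [← inv a, h, inv]
  have injμ₀ : Function.Injective μ₀ := fun a b h => by rw [← inv₀ a, h, inv₀]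
  have c1 : (X.image μ) ⊆ Y := by
    intro w hw
    obtain ⟨u, hu, rfl⟩ := Finset.mem_image.mp hw
    exact hXY u hu
  have c2 : (Y.image μ₀) ⊆ X := by
    intro w hw
    obtain ⟨u, hu, rfl⟩ := Finset.mem_image.mp hw
    exact hYX u hu
  have c3 := Finset.card_le_card c2
  rw [Finset.card_image_of_injective _ injμ₀] at c3
  have c4 : X.image μ = Y := by
    apply Finset.eq_of_subset_of_card_le c1
    rw [Finset.card_image_of_injective _ injμ]
    exact c3
  have hvY : v ∈ Y := by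
    simp only [Y, Finset.mem_filter, Finset.mem_univ, true_and]
    exact hv
  rw [← c4] at hvY
  obtain ⟨u, hu, huv⟩ := Finset.mem_image.mp hvY
  simp only [X, Finset.mem_filter, Finset.mem_univ, true_and] at hu
  have : μ v = u := by rw [← huv, inv]
  rw [this]
  refine ⟨?_, ?_⟩
  · rw [← huv]; exact fun h => hu.1 h.symm
  · rw [← huv]; exact hu.2

end Pool.Agent.SRViol
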