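import Mathlib
import Pool.Agent.SRViol.Key

/-!
# The gadgets

Agents: for every variable a ring of `2 * mc + 2` pairs, for every clause a gadget of three men and
three women, and four dummies.
-/

namespace Pool.Agent.SRViol

/-- Agents of the instance built from a formula with `nv` variables and `mc` clauses. -/
inductive Ag (nv mc : ℕ)
  | ring (k : Fin (2 * mc + 2)) (i : Fin nv) (s : Bool) : Ag nv mc
  | gad (j : Fin mc) (t : Fin 3) (s : Bool) : Ag nv mc
  | dum (d : Fin 4) : Ag nv mc
  deriving DecidableEq, Fintype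

open Ag

variable {nv mc : ℕ}

/-- Position in the rings of the agent joined to the agent `(j, 0, s)` of the clause gadget. -/
def slot (j : Fin mc) (s : Bool) : Fin (2 * mc + 2) :=
  ⟨2 * j + (if s then 0 else 1), by have := j.2; split <;> omega⟩

theorem slot_inj {j j' : Fin mc} {s s' : Bool} (h : slot j s = slot j' s') : j = j' ∧ s = s' := by
  have h' := congrArg Fin.val h
  simp only [slot] at h'
  cases s <;> cases s' <;> simp at h' ⊢ <;> first | (apply Fin.ext; omega) | omega

/-- The partner of a dummy. -/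
def sw (d : Fin 4) : Fin 4 := ![1, 0, 3, 2] d

/-- Ranks: `Am u v = 0` if `u` and `v` are not adjacent, otherwise `Am u v` is the (one-based) rank
of `v` in the list of `u`; `sl j true` and `sl j false` are the literals of the clause `j`. -/
def Am (sl : Fin mc → Bool → Fin nv × Bool) : Ag nv mc → Ag nv mc → ℕ
  | ring k i false, ring k' i' true =>
      if i = i' then (if k' = k then 1 else if k' = k + 1 then 3 else 0) else 0
  | ring k i true, ring k' i' false =>
      if i = i' then (if k = k' + 1 then 1 else if k' = k then 3 else 0) else 0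
  | ring k i s, gad j t s' => if t = 0 ∧ k = slot j s' ∧ sl j s' = (i, !s) then 2 else 0
  | gad j t s', ring k i s => if t = 0 ∧ k = slot j s' ∧ sl j s' = (i, !s) then 3 else 0
  | gad j t false, gad j' t' true =>
      if j = j' then (if t' = t then 1 else if t' = t + 1 then 2 else 4) else 0
  | gad j t true, gad j' t' false =>
      if j = j' then (if t' = t + 1 then 1 else if t' = t + 2 then 2 else 4) else 0
  | dum d, dum d' => if d' = sw d then 1 else 0
  | _, _ => 0

variable (sl : Fin mc → Bool → Fin nv × Bool)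

theorem one_ne_zero' : (1 : Fin (2 * mc + 2)) ≠ 0 := by
  intro h
  have := congrArg Fin.val h
  simp at this

theorem add_one_ne (k : Fin (2 * mc + 2)) : k + 1 ≠ k := by
  intro h
  have : (1 : Fin (2 * mc + 2)) = 0 := by
    have h2 : k + 1 = k + 0 := by rw [h, add_zero]
    exact add_left_cancel h2
  exact one_ne_zero' this

theorem ne_ab (i i' : Fin nv) (k k' : Fin (2 * mc + 2)) :
    Am sl (ring k i false) (ring k' i' true) ≠ 0 ↔ i = i' ∧ (k' = k ∨ k' = k + 1) := by
  simp only [Am]
  split_ifs with h1 h2 h3 <;> simp [*]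

theorem ne_ba (i i' : Fin nv) (k k' : Fin (2 * mc + 2)) :
    Am sl (ring k i true) (ring k' i' false) ≠ 0 ↔ i = i' ∧ (k = k' + 1 ∨ k' = k) := by
  simp only [Am]
  split_ifs with h1 h2 h3 <;> simp [*]

theorem ne_rg (i : Fin nv) (k : Fin (2 * mc + 2)) (s : Bool) (j : Fin mc) (t : Fin 3) (s' : Bool) :
    Am sl (ring k i s) (gad j t s') ≠ 0 ↔ t = 0 ∧ k = slot j s' ∧ sl j s' = (i, !s) := by
  cases s <;> cases s' <;> simp only [Am] <;> split_ifs with h <;>
    first
    | exact ⟨fun _ => h, fun _ => by omega⟩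
    | exact ⟨fun h' => absurd rfl h', fun h' => absurd h' h⟩

theorem ne_gr (i : Fin nv) (k : Fin (2 * mc + 2)) (s : Bool) (j : Fin mc) (t : Fin 3) (s' : Bool) :
    Am sl (gad j t s') (ring k i s) ≠ 0 ↔ t = 0 ∧ k = slot j s' ∧ sl j s' = (i, !s) := by
  cases s <;> cases s' <;> simp only [Am] <;> split_ifs with h <;>
    first
    | exact ⟨fun _ => h, fun _ => by omega⟩
    | exact ⟨fun h' => absurd rfl h', fun h' => absurd h' h⟩

theorem val_rg {i : Fin nv} {k : Fin (2 * mc + 2)} {s : Bool} {j : Fin mc} {t : Fin 3} {s' : Bool}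
    (h : t = 0 ∧ k = slot j s' ∧ sl j s' = (i, !s)) : Am sl (ring k i s) (gad j t s') = 2 := by
  cases s <;> cases s' <;> simp only [Am] <;> exact if_pos h

theorem val_gr {i : Fin nv} {k : Fin (2 * mc + 2)} {s : Bool} {j : Fin mc} {t : Fin 3} {s' : Bool}
    (h : t = 0 ∧ k = slot j s' ∧ sl j s' = (i, !s)) : Am sl (gad j t s') (ring k i s) = 3 := by
  cases s <;> cases s' <;> simp only [Am] <;> exact if_pos h

theorem ne_mw (j j' : Fin mc) (t t' : Fin 3) :
    Am sl (gad j t false) (gad j' t' true) ≠ 0 ↔ j = j' := by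
  simp only [Am]
  split_ifs with h1 h2 h3 <;> simp [*]

theorem ne_wm (j j' : Fin mc) (t t' : Fin 3) :
    Am sl (gad j t true) (gad j' t' false) ≠ 0 ↔ j = j' := by
  simp only [Am]
  split_ifs with h1 h2 h3 <;> simp [*]

theorem ne_dd (d d' : Fin 4) :
    Am sl (dum d) (dum d' : Ag nv mc) ≠ 0 ↔ d' = sw d := by
  simp only [Am]
  split_ifs with h1 <;> simp [*]

theorem Am_symm (u v : Ag nv mc) (h : Am sl u v ≠ 0) : Am sl v u ≠ 0 := by
  rcases u with ⟨k, i, _ | _⟩ | ⟨j, t, _ | _⟩ | ⟨d⟩ <;>
    rcases v with ⟨k', i', _ | _⟩ | ⟨j', t', _ | _⟩ | ⟨d'⟩ <;>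
    first
    | (rw [ne_ab] at h; rw [ne_ba]; exact ⟨h.1.symm, h.2.symm.imp id Eq.symm⟩)
    | (rw [ne_ba] at h; rw [ne_ab]; exact ⟨h.1.symm, h.2.symm.imp Eq.symm id⟩)
    | (rw [ne_rg] at h; rw [ne_gr]; exact h)
    | (rw [ne_gr] at h; rw [ne_rg]; exact h)
    | (rw [ne_mw] at h; rw [ne_wm]; exact h.symm)
    | (rw [ne_wm] at h; rw [ne_mw]; exact h.symm)
    | (rw [ne_dd] at h ⊢; revert h; revert d d'; decide)
    | (exact absurd rfl h)

theorem Am_irrefl (u : Ag nv mc) : Am sl u u = 0 := by
  rcases u with ⟨k, i, _ | _⟩ | ⟨j, t, _ | _⟩ | ⟨d⟩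
  · rfl
  · rfl
  · rfl
  · rfl
  · simp only [Am]
    revert d; decide

theorem Am_le (u v : Ag nv mc) : Am sl u v ≤ 4 := by
  rcases u with ⟨k, i, _ | _⟩ | ⟨j, t, _ | _⟩ | ⟨d⟩ <;>
    rcases v with ⟨k', i', _ | _⟩ | ⟨j', t', _ | _⟩ | ⟨d'⟩ <;>
    simp only [Am] <;> (try split_ifs) <;> omega

theorem fin3_ne (t : Fin 3) : t + 1 ≠ t ∧ t + 2 ≠ t ∧ t + 1 ≠ t + 2 := by revert t; decide

theorem g1 {j' j'' : Fin mc} {t' t'' : Fin 3} {s' s'' : Bool} {k : Fin (2 * mc + 2)}
    {x : Fin nv × Bool} (h1 : t' = 0 ∧ k = slot j' s' ∧ sl j' s' = x)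
    (h2 : t'' = 0 ∧ k = slot j'' s'' ∧ sl j'' s'' = x) :
    (gad j' t' s' : Ag nv mc) = gad j'' t'' s'' := by
  obtain ⟨a1, a2, _⟩ := h1
  obtain ⟨b1, b2, _⟩ := h2
  have := slot_inj (a2.symm.trans b2)
  rw [a1, b1, this.1, this.2]

theorem g2 {k k' k'' : Fin (2 * mc + 2)} {i i' i'' : Fin nv} {s : Bool} (h1 : k = k' + 1)
    (h2 : k = k'' + 1) (h3 : i = i') (h4 : i = i'') :
    (ring k' i' s : Ag nv mc) = ring k'' i'' s := by
  have : k' = k'' := add_right_cancel (h1.symm.trans h2)
  rw [this, ← h3, ← h4]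

theorem g3 {j : Fin mc} {t : Fin 3} {s s' s'' : Bool} {k' k'' : Fin (2 * mc + 2)}
    {i' i'' : Fin nv} (h1 : t = 0 ∧ k' = slot j s ∧ sl j s = (i', !s'))
    (h2 : t = 0 ∧ k'' = slot j s ∧ sl j s = (i'', !s'')) :
    (ring k' i' s' : Ag nv mc) = ring k'' i'' s'' := by
  obtain ⟨_, a2, a3⟩ := h1
  obtain ⟨_, b2, b3⟩ := h2
  have h := a3.symm.trans b3
  rw [Prod.mk.injEq] at h
  have : s' = s'' := by
    have := h.2
    revert this
    cases s' <;> cases s'' <;> decide
  rw [a2, b2, h.1, this]

theorem g4 {j j' j'' : Fin mc} {t t' t'' : Fin 3} {s : Bool} (h1 : j = j') (h2 : j = j'')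
    (h3 : ¬ t' = t) (h4 : ¬ t' = t + 1) (h5 : ¬ t'' = t) (h6 : ¬ t'' = t + 1) :
    (gad j' t' s : Ag nv mc) = gad j'' t'' s := by
  have : t' = t'' := by
    revert h3 h4 h5 h6
    revert t t' t''
    decide
  rw [← h1, ← h2, this]

theorem g5 {j j' j'' : Fin mc} {t t' t'' : Fin 3} {s : Bool} (h1 : j = j') (h2 : j = j'')
    (h3 : ¬ t' = t + 1) (h4 : ¬ t' = t + 2) (h5 : ¬ t'' = t + 1) (h6 : ¬ t'' = t + 2) :
    (gad j' t' s : Ag nv mc) = gad j'' t'' s := by
  have : t' = t'' := by
    revert h3 h4 h5 h6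
    revert t t' t''
    decide
  rw [← h1, ← h2, this]

theorem Am_inj (v u w : Ag nv mc) (h1 : Am sl v u ≠ 0) (h2 : Am sl v w = Am sl v u) : u = w := by
  rcases v with ⟨k, i, _ | _⟩ | ⟨j, t, _ | _⟩ | ⟨d⟩ <;>
    rcases u with ⟨k', i', _ | _⟩ | ⟨j', t', _ | _⟩ | ⟨d'⟩ <;>
    simp only [Am] at h1 h2 <;>
    first
    | exact absurd rfl h1
    | (rcases w with ⟨k'', i'', _ | _⟩ | ⟨j'', t'', _ | _⟩ | ⟨d''⟩ <;>
        simp only [] at h1 h2 <;> split_ifs at h1 h2 <;>
        first
        | omega
        | (subst_vars; rfl)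
        | exact g1 sl (by assumption) (by assumption)
        | exact g2 (by assumption) (by assumption) (by assumption) (by assumption)
        | exact g3 sl (by assumption) (by assumption)
        | exact g4 (t := t) (by assumption) (by assumption) (by assumption) (by assumption)
            (by assumption) (by assumption)
        | exact g5 (t := t) (by assumption) (by assumption) (by assumption) (by assumption)
            (by assumption) (by assumption))

/-! ### The matchings given by an assignment and states of the clause gadgets -/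

/-- The matching given by the assignment `z` and the states `st`. -/
def mu0 (z : Fin nv → Bool) (st : Fin mc → Fin 3) : Ag nv mc → Ag nv mc
  | ring k i false => if z i then ring k i true else ring (k + 1) i true
  | ring k i true => if z i then ring k i false else ring (k - 1) i false
  | gad j t false => gad j (t + st j) true
  | gad j t true => gad j (t - st j) false
  | dum d => dum (sw d)

theorem sw_sw (d : Fin 4) : sw (sw d) = d := by revert d; decide

theorem mu0_inv (z : Fin nv → Bool) (st : Fin mc → Fin 3) (v : Ag nv mc) :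
    mu0 z st (mu0 z st v) = v := by
  rcases v with ⟨k, i, _ | _⟩ | ⟨j, t, _ | _⟩ | ⟨d⟩
  · by_cases h : z i = true
    · simp [mu0, h]
    · simp [mu0, h]
  · by_cases h : z i = true
    · simp [mu0, h]
    · simp [mu0, h]
  · simp [mu0]
  · simp [mu0]
  · simp [mu0, sw_sw]

/-- The rank of the partner of a gadget agent. -/
theorem Am_mu0_man (z : Fin nv → Bool) (st : Fin mc → Fin 3) (j : Fin mc) (t : Fin 3) :
    Am sl (gad j t false) (mu0 z st (gad j t false)) =
      if st j = 0 then 1 else if st j = 1 then 2 else 4 := by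
  simp only [mu0, Am, if_true]
  have : ∀ a b : Fin 3, (if a + b = a then 1 else if a + b = a + 1 then 2 else 4) =
      (if b = 0 then 1 else if b = 1 then 2 else 4) := by decide
  exact this t (st j)

theorem Am_mu0_woman (z : Fin nv → Bool) (st : Fin mc → Fin 3) (j : Fin mc) (t : Fin 3) :
    Am sl (gad j t true) (mu0 z st (gad j t true)) =
      if st j = 2 then 1 else if st j = 1 then 2 else 4 := by
  simp only [mu0, Am, if_true]
  have : ∀ a b : Fin 3, (if a - b = a + 1 then 1 else if a - b = a + 2 then 2 else 4) =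
      (if b = 2 then 1 else if b = 1 then 2 else 4) := by decide
  exact this t (st j)

theorem Am_mu0_ring (z : Fin nv → Bool) (st : Fin mc → Fin 3) (k : Fin (2 * mc + 2)) (i : Fin nv)
    (s : Bool) : Am sl (ring k i s) (mu0 z st (ring k i s)) = if z i = s then 3 else 1 := by
  cases s
  · by_cases h : z i = true
    · simp [mu0, h, Am]
    · simp only [mu0, h, Am, if_true]
      simp
  · by_cases h : z i = true
    · simp only [mu0, h, Am, if_true]
      rw [if_neg (fun h => add_one_ne k h.symm)]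
    · simp [mu0, h, Am]

theorem Am_mu0_ne (z : Fin nv → Bool) (st : Fin mc → Fin 3) (v : Ag nv mc) :
    Am sl v (mu0 z st v) ≠ 0 := by
  rcases v with ⟨k, i, s⟩ | ⟨j, t, _ | _⟩ | ⟨d⟩
  · rw [Am_mu0_ring]; split_ifs <;> omega
  · rw [Am_mu0_man]; split_ifs <;> omega
  · rw [Am_mu0_woman]; split_ifs <;> omega
  · simp [mu0, Am]

/-- The states are compatible with the assignment. -/
def Compat (z : Fin nv → Bool) (st : Fin mc → Fin 3) : Prop :=
  ∀ j, (z (sl j true).1 ≠ (sl j true).2 → st j ≠ 0) ∧ (z (sl j false).1 ≠ (sl j false).2 → st j ≠ 2)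

theorem stable0_aux {z : Fin nv → Bool} {st : Fin mc → Fin 3} (h : Compat sl z st)
    (k : Fin (2 * mc + 2)) (i : Fin nv) (s : Bool) (j : Fin mc) (t : Fin 3) (s' : Bool)
    (h0 : Am sl (ring k i s) (gad j t s') ≠ 0) :
    ¬ (Am sl (ring k i s) (gad j t s') < Am sl (ring k i s) (mu0 z st (ring k i s)) ∧
      Am sl (gad j t s') (ring k i s) < Am sl (gad j t s') (mu0 z st (gad j t s'))) := by
  have h1 := (ne_rg sl i k s j t s').mp h0
  have e1 : Am sl (ring k i s) (gad j t s') = 2 := val_rg sl h1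
  have e2 : Am sl (gad j t s') (ring k i s) = 3 := val_gr sl h1
  rw [e1, e2, Am_mu0_ring]
  rintro ⟨h2, h3⟩
  have hz : z i = s := by
    by_contra hz
    rw [if_neg hz] at h2
    omega
  obtain ⟨_, _, h4⟩ := h1
  have hne : z (sl j s').1 ≠ (sl j s').2 := by
    rw [h4]
    simp only [hz]
    cases s <;> decide
  cases s'
  · have := (h j).2 hne
    rw [Am_mu0_man] at h3
    split_ifs at h3 with a b
    · omega
    · omega
    · have h5 : ∀ x : Fin 3, ¬ x = 0 → ¬ x = 1 → x = 2 := by decide
      exact this (h5 _ a b)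
  · have := (h j).1 hne
    rw [Am_mu0_woman] at h3
    split_ifs at h3 with a b
    · omega
    · omega
    · have h5 : ∀ x : Fin 3, ¬ x = 2 → ¬ x = 1 → x = 0 := by decide
      exact this (h5 _ a b)

theorem stable0 {z : Fin nv → Bool} {st : Fin mc → Fin 3} (h : Compat sl z st)
    (u v : Ag nv mc) (h0 : Am sl u v ≠ 0) :
    ¬ (Am sl u v < Am sl u (mu0 z st u) ∧ Am sl v u < Am sl v (mu0 z st v)) := by
  rcases u with ⟨k, i, s⟩ | ⟨j, t, s⟩ | ⟨d⟩ <;> rcases v with ⟨k', i', s'⟩ | ⟨j', t', s'⟩ | ⟨d'⟩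
  · rw [Am_mu0_ring, Am_mu0_ring]
    rintro ⟨h1, h2⟩
    cases s <;> cases s'
    · exact h0 rfl
    · have := ((ne_ab sl i i' k k').mp h0).1
      subst this
      split_ifs at h1 h2 with a b
      · rw [a] at b; cases b
      · have := Am_symm sl _ _ h0; omega
      · omega
      · omega
    · have := ((ne_ba sl i i' k k').mp h0).1
      subst this
      split_ifs at h1 h2 with a b
      · rw [a] at b; cases b
      · have := Am_symm sl _ _ h0; omega
      · omega
      · omega
    · exact h0 rfl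
  · exact stable0_aux sl h k i s j' t' s' h0
  · exact absurd (by cases s <;> rfl) h0
  · intro h1
    exact stable0_aux sl h k' i' s' j t s (Am_symm sl _ _ h0) ⟨h1.2, h1.1⟩
  · cases s <;> cases s'
    · exact absurd rfl h0
    · have := (ne_mw sl j j' t t').mp h0
      subst this
      rw [Am_mu0_man, Am_mu0_woman]
      simp only [Am, if_true]
      generalize st j = x
      clear h0
      revert x t t'
      decide
    · have := (ne_wm sl j j' t t').mp h0
      subst this
      rw [Am_mu0_man, Am_mu0_woman]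
      simp only [Am, if_true]
      generalize st j = x
      clear h0
      revert x t t'
      decide
    · exact absurd rfl h0
  · exact absurd (by cases s <;> rfl) h0
  · exact absurd (by cases s' <;> rfl) h0
  · exact absurd (by cases s' <;> rfl) h0
  · have := (ne_dd sl d d').mp h0
    subst this
    rintro ⟨h1, _⟩
    simp only [mu0] at h1
    omega

/-! ### The structure of stable matchings -/

/-- `μ` describes a stable matching. -/
structure Stab (μ : Ag nv mc → Ag nv mc) : Prop where
  inv : ∀ v, μ (μ v) = v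
  adj : ∀ v, μ v ≠ v → Am sl v (μ v) ≠ 0
  st : ∀ u v, Am sl u v ≠ 0 →
    ¬ ((μ u = u ∨ Am sl u v < Am sl u (μ u)) ∧ (μ v = v ∨ Am sl v u < Am sl v (μ v)))

variable {sl}

theorem Stab.key {μ : Ag nv mc → Ag nv mc} (h : Stab sl μ) {z : Fin nv → Bool}
    {st : Fin mc → Fin 3} (hc : Compat sl z st) (v : Ag nv mc)
    (hv : μ v = v ∨ Am sl v (mu0 z st v) < Am sl v (μ v)) :
    μ v ≠ v ∧ Am sl (μ v) v < Am sl (μ v) (mu0 z st (μ v)) :=
  SRViol.key (fun u v => Am sl u v ≠ 0) (Am sl) (Am_symm sl)
    (fun v u w h1 _ h3 => Am_inj sl v u w h1 h3.symm)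
    (mu0 z st) μ (mu0_inv z st) h.inv (Am_mu0_ne sl z st) h.adj (stable0 sl hc) h.st v hv

theorem compat_one (z : Fin nv → Bool) : Compat sl z (fun _ => 1) :=
  fun _ => ⟨fun _ => show (1 : Fin 3) ≠ 0 by decide, fun _ => show (1 : Fin 3) ≠ 2 by decide⟩

theorem Stab.perfect {μ : Ag nv mc → Ag nv mc} (h : Stab sl μ) (v : Ag nv mc) : μ v ≠ v := by
  intro hv
  exact (h.key (compat_one (fun _ => true)) v (Or.inl hv)).1 hv

theorem Stab.adj' {μ : Ag nv mc → Ag nv mc} (h : Stab sl μ) (v : Ag nv mc) :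
    Am sl v (μ v) ≠ 0 := h.adj v (h.perfect v)

theorem Stab.no_extra {μ : Ag nv mc → Ag nv mc} (h : Stab sl μ) (k : Fin (2 * mc + 2))
    (i : Fin nv) (s : Bool) (j : Fin mc) (t : Fin 3) (s' : Bool) :
    μ (ring k i s) ≠ gad j t s' := by
  intro he
  have h0 := h.adj' (ring k i s)
  rw [he] at h0
  have h1 := (ne_rg sl i k s j t s').mp h0
  have e1 : Am sl (ring k i s) (gad j t s') = 2 := val_rg sl h1
  have e2 : Am sl (gad j t s') (ring k i s) = 3 := val_gr sl h1
  have hk := h.key (compat_one (fun _ => !s)) (ring k i s) (Or.inr (by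
    rw [he, e1, Am_mu0_ring]
    have : ¬ (!s) = s := by cases s <;> decide
    rw [if_neg this]
    omega))
  rw [he, e2] at hk
  have h3 := hk.2
  cases s'
  · rw [Am_mu0_man] at h3
    simp at h3
  · rw [Am_mu0_woman] at h3
    simp at h3

/-- The assignment given by a matching. -/
def zOf (μ : Ag nv mc → Ag nv mc) (i : Fin nv) : Bool :=
  decide (μ (ring 0 i false) = ring 0 i true)

theorem Stab.ring_cases {μ : Ag nv mc → Ag nv mc} (h : Stab sl μ) (k : Fin (2 * mc + 2))
    (i : Fin nv) : μ (ring k i false) = ring k i true ∨ μ (ring k i false) = ring (k + 1) i true := by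
  have h0 := h.adj' (ring k i false)
  rcases he : μ (ring k i false) with ⟨k', i', _ | _⟩ | ⟨j, t, s⟩ | ⟨d⟩
  · rw [he] at h0; exact absurd rfl h0
  · rw [he] at h0
    obtain ⟨h1, h2⟩ := (ne_ab sl i i' k k').mp h0
    subst h1
    rcases h2 with h2 | h2
    · left; rw [h2]
    · right; rw [h2]
  · exact absurd he (h.no_extra k i false j t s)
  · rw [he] at h0; exact absurd rfl h0

theorem Stab.ring_step {μ : Ag nv mc → Ag nv mc} (h : Stab sl μ) (k : Fin (2 * mc + 2))
    (i : Fin nv) (hk : μ (ring (k + 1) i false) = ring (k + 1) i true) :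
    μ (ring k i false) = ring k i true := by
  rcases h.ring_cases k i with h1 | h1
  · exact h1
  · exfalso
    have h2 : μ (ring k i false) = μ (ring (k + 1) i false) := by rw [h1, hk]
    have h3 : (ring k i false : Ag nv mc) = ring (k + 1) i false := by
      rw [← h.inv (ring k i false), h2, h.inv]
    simp only [ring.injEq, and_true] at h3
    exact add_one_ne k h3.symm

theorem Stab.ring_all {μ : Ag nv mc → Ag nv mc} (h : Stab sl μ) (k k' : Fin (2 * mc + 2))
    (i : Fin nv) (hk : μ (ring k i false) = ring k i true) :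
    μ (ring k' i false) = ring k' i true := by
  have aux : ∀ n : ℕ, ∀ a b : Fin (2 * mc + 2), (b : ℕ) = ((a : ℕ) + n) % (2 * mc + 2) →
      μ (ring b i false) = ring b i true → μ (ring a i false) = ring a i true := by
    intro n
    induction n with
    | zero =>
      intro a b hab hb
      have : b = a := Fin.ext (by rw [hab, Nat.add_zero, Nat.mod_eq_of_lt a.2])
      rw [← this]; exact hb
    | succ n ih =>
      intro a b hab hb
      apply h.ring_step
      apply ih (a + 1) b _ hb
      have h1 : ((1 : Fin (2 * mc + 2)) : ℕ) = 1 := rfl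
      rw [hab, Fin.val_add, h1, Nat.mod_add_mod]
      congr 1
      omega
  apply aux ((k : ℕ) + (2 * mc + 2) - k') k' k _ hk
  have h1 := k'.2
  have h2 : (k' : ℕ) + ((k : ℕ) + (2 * mc + 2) - k') = k + (2 * mc + 2) := by omega
  rw [h2, Nat.add_mod_right, Nat.mod_eq_of_lt k.2]

theorem Stab.ring_rank {μ : Ag nv mc → Ag nv mc} (h : Stab sl μ) (k : Fin (2 * mc + 2))
    (i : Fin nv) (s : Bool) (hs : zOf μ i = s) : Am sl (ring k i s) (μ (ring k i s)) = 3 := by
  cases s
  · have h0 : ¬ μ (ring 0 i false) = ring 0 i true := by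
      unfold zOf at hs
      simpa using hs
    have h1 : ¬ μ (ring k i false) = ring k i true := fun hk => h0 (h.ring_all k 0 i hk)
    rcases h.ring_cases k i with h2 | h2
    · exact absurd h2 h1
    · rw [h2]
      simp only [Am, if_true]
      rw [if_neg (add_one_ne k)]
  · have h0 : μ (ring 0 i false) = ring 0 i true := by
      unfold zOf at hs
      simpa using hs
    have h1 : μ (ring k i false) = ring k i true := h.ring_all 0 k i h0
    have h2 : μ (ring k i true) = ring k i false := by rw [← h1, h.inv]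
    rw [h2]
    simp only [Am, if_true]
    rw [if_neg (fun h => add_one_ne k h.symm)]

/-- If both literals of the clause `j` are false, the matching contains the forbidden edge of the
clause. -/
theorem Stab.unsat_edge {μ : Ag nv mc → Ag nv mc} (h : Stab sl μ) (j : Fin mc)
    (h1 : zOf μ (sl j true).1 ≠ (sl j true).2) (h2 : zOf μ (sl j false).1 ≠ (sl j false).2) :
    μ (gad j 0 false) = gad j 1 true := by
  have hneg : ∀ a b : Bool, a ≠ b → a = !b := by decide
  -- the extra edges of the clause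
  have ex : ∀ s : Bool, zOf μ (sl j s).1 ≠ (sl j s).2 →
      ¬ 3 < Am sl (gad j 0 s) (μ (gad j 0 s)) := by
    intro s hs hlt
    have e0 : (0 : Fin 3) = 0 ∧ slot j s = slot j s ∧
        sl j s = ((sl j s).1, !(!(sl j s).2)) := ⟨rfl, rfl, by simp⟩
    have hadj := (ne_rg sl (sl j s).1 (slot j s) (!(sl j s).2) j 0 s).mpr e0
    apply h.st _ _ hadj
    refine ⟨Or.inr ?_, Or.inr ?_⟩
    · rw [h.ring_rank _ _ _ (hneg _ _ hs), val_rg sl e0]
      omega
    · rw [val_gr sl e0]
      omega
  have hw := ex true h1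
  have hm := ex false h2
  have h0 := h.adj' (gad j 0 false)
  rcases he : μ (gad j 0 false) with ⟨k, i, s⟩ | ⟨j', t, _ | _⟩ | ⟨d⟩
  · have := h.inv (gad j 0 false)
    rw [he] at this
    exact absurd this (h.no_extra k i s j 0 false)
  · rw [he] at h0; exact absurd rfl h0
  · rw [he] at h0 hm
    have := (ne_mw sl j j' 0 t).mp h0
    subst this
    have ht : t = 0 ∨ t = 1 ∨ t = 2 := by
      have : ∀ t : Fin 3, t = 0 ∨ t = 1 ∨ t = 2 := by decide
      exact this t
    rcases ht with rfl | rfl | rfl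
    · exfalso
      have h3 : μ (gad j 0 true) = gad j 0 false := by rw [← he, h.inv]
      rw [h3] at hw
      apply hw
      simp [Am]
    · rfl
    · exfalso
      apply hm
      simp [Am]
  · rw [he] at h0; exact absurd rfl h0

end Pool.Agent.SRViol
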