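import Mathlib
import Pool.Agent.SRViol.Defs
import Pool.Agent.SRViol.Gadget

/-!
# The instance built from a 2CNF formula
-/

namespace Pool.Agent.SRViol

open Ag

/-- Number of ring agents. -/
def RR (nv mc : ℕ) : ℕ := (2 * mc + 2) * (2 * nv)

/-- Number of agents. -/
def NN (nv mc : ℕ) : ℕ := RR nv mc + 6 * mc + 4

/-- Numbering of the agents. -/
def encN {nv mc : ℕ} : Ag nv mc → ℕ
  | ring k i s => (k : ℕ) * (2 * nv) + (2 * (i : ℕ) + s.toNat)
  | gad j t s => RR nv mc + (6 * (j : ℕ) + (2 * (t : ℕ) + s.toNat))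
  | dum d => RR nv mc + 6 * mc + d

theorem toNat_le (s : Bool) : s.toNat ≤ 1 := by cases s <;> decide

variable {nv mc : ℕ}

theorem ring_lt (k : Fin (2 * mc + 2)) (i : Fin nv) (s : Bool) :
    (k : ℕ) * (2 * nv) + (2 * (i : ℕ) + s.toNat) < RR nv mc := by
  have h1 := k.2
  have h2 := i.2
  have h3 := toNat_le s
  unfold RR
  calc (k : ℕ) * (2 * nv) + (2 * (i : ℕ) + s.toNat) < k * (2 * nv) + 2 * nv := by omega
    _ = (k + 1) * (2 * nv) := by ring
    _ ≤ _ := Nat.mul_le_mul_right _ h1

theorem gad_lt (j : Fin mc) (t : Fin 3) (s : Bool) :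
    RR nv mc + (6 * (j : ℕ) + (2 * (t : ℕ) + s.toNat)) < RR nv mc + 6 * mc := by
  have h1 := j.2
  have h2 := t.2
  have h3 := toNat_le s
  omega

theorem encN_lt (a : Ag nv mc) : encN a < NN nv mc := by
  unfold NN
  rcases a with ⟨k, i, s⟩ | ⟨j, t, s⟩ | ⟨d⟩
  · have := ring_lt k i s
    simp only [encN]
    omega
  · have := gad_lt (nv := nv) j t s
    simp only [encN]
    omega
  · have := d.2
    simp only [encN]
    omega

/-! ### Decoding -/

theorem ring_kk (k : Fin (2 * mc + 2)) (i : Fin nv) (s : Bool) :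
    ((k : ℕ) * (2 * nv) + (2 * (i : ℕ) + s.toNat)) / (2 * nv) = k := by
  have h2 := i.2
  have h3 := toNat_le s
  rw [Nat.mul_comm, Nat.mul_add_div (by omega), Nat.div_eq_of_lt (by omega), Nat.add_zero]

theorem ring_ii (k : Fin (2 * mc + 2)) (i : Fin nv) (s : Bool) :
    ((k : ℕ) * (2 * nv) + (2 * (i : ℕ) + s.toNat)) % (2 * nv) / 2 = i := by
  have h2 := i.2
  have h3 := toNat_le s
  rw [Nat.mul_comm, Nat.mul_add_mod, Nat.mod_eq_of_lt (by omega)]
  omega

theorem ring_ss (k : Fin (2 * mc + 2)) (i : Fin nv) (s : Bool) :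
    ((k : ℕ) * (2 * nv) + (2 * (i : ℕ) + s.toNat)) % 2 = s.toNat := by
  have h3 := toNat_le s
  have : (k : ℕ) * (2 * nv) + (2 * (i : ℕ) + s.toNat) = 2 * (k * nv + i) + s.toNat := by ring
  rw [this]
  omega

theorem gad_jj (j : Fin mc) (t : Fin 3) (s : Bool) :
    (RR nv mc + (6 * (j : ℕ) + (2 * (t : ℕ) + s.toNat)) - RR nv mc) / 6 = j := by
  have h1 := j.2
  have h2 := t.2
  have h3 := toNat_le s
  omega

theorem gad_tt (j : Fin mc) (t : Fin 3) (s : Bool) :
    (RR nv mc + (6 * (j : ℕ) + (2 * (t : ℕ) + s.toNat)) - RR nv mc) % 6 / 2 = t := by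
  have h1 := j.2
  have h2 := t.2
  have h3 := toNat_le s
  omega

theorem RR_even (nv mc : ℕ) : RR nv mc % 2 = 0 := by
  unfold RR
  have : (2 * mc + 2) * (2 * nv) = 2 * ((2 * mc + 2) * nv) := by ring
  rw [this]
  omega

theorem gad_ss (j : Fin mc) (t : Fin 3) (s : Bool) :
    (RR nv mc + (6 * (j : ℕ) + (2 * (t : ℕ) + s.toNat))) % 2 = s.toNat := by
  have h0 := RR_even nv mc
  have h3 := toNat_le s
  omega

theorem toNat_inj {s s' : Bool} (h : s.toNat = s'.toNat) : s = s' := by
  revert h; cases s <;> cases s' <;> decide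

theorem encN_inj : Function.Injective (encN : Ag nv mc → ℕ) := by
  intro a b h
  rcases a with ⟨k, i, s⟩ | ⟨j, t, s⟩ | ⟨d⟩ <;> rcases b with ⟨k', i', s'⟩ | ⟨j', t', s'⟩ | ⟨d'⟩ <;>
    simp only [encN] at h
  · have h1 := ring_kk k i s
    have h2 := ring_ii k i s
    have h3 := ring_ss k i s
    rw [h] at h1 h2 h3
    rw [ring_kk] at h1
    rw [ring_ii] at h2
    rw [ring_ss] at h3
    rw [Fin.ext h1, Fin.ext h2, toNat_inj h3]
  · have := ring_lt k i s; omega
  · have := ring_lt k i s; omega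
  · have := ring_lt k' i' s'; omega
  · have h1 := gad_jj (nv := nv) j t s
    have h2 := gad_tt (nv := nv) j t s
    have h3 := gad_ss (nv := nv) j t s
    rw [h] at h1 h2 h3
    rw [gad_jj] at h1
    rw [gad_tt] at h2
    rw [gad_ss] at h3
    rw [Fin.ext h1, Fin.ext h2, toNat_inj h3]
  · have := gad_lt (nv := nv) j t s; omega
  · have := ring_lt k' i' s'; omega
  · have := gad_lt (nv := nv) j' t' s'; omega
  · rw [Fin.ext (by omega : (d : ℕ) = d')]

theorem encN_surj (u : ℕ) (hu : u < NN nv mc) : ∃ a : Ag nv mc, encN a = u := by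
  unfold NN at hu
  by_cases h1 : u < RR nv mc
  · have hnv : 0 < nv := by
      rcases Nat.eq_zero_or_pos nv with h | h
      · subst h
        simp [RR] at h1
      · exact h
    refine ⟨ring ⟨u / (2 * nv), ?_⟩ ⟨u % (2 * nv) / 2, ?_⟩ (decide (u % (2 * nv) % 2 = 1)), ?_⟩
    · unfold RR at h1
      exact Nat.div_lt_of_lt_mul (by rw [Nat.mul_comm]; exact h1)
    · have := Nat.mod_lt u (by omega : 0 < 2 * nv)
      omega
    · simp only [encN]
      have h2 : (decide (u % (2 * nv) % 2 = 1)).toNat = u % (2 * nv) % 2 := by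
        have := Nat.mod_two_eq_zero_or_one (u % (2 * nv))
        rcases this with h | h <;> rw [h] <;> decide
      rw [h2, Nat.div_add_mod, Nat.div_add_mod']
  · by_cases h2 : u < RR nv mc + 6 * mc
    · refine ⟨gad ⟨(u - RR nv mc) / 6, by omega⟩ ⟨(u - RR nv mc) % 6 / 2, by omega⟩
        (decide ((u - RR nv mc) % 6 % 2 = 1)), ?_⟩
      simp only [encN]
      have h3 : (decide ((u - RR nv mc) % 6 % 2 = 1)).toNat = (u - RR nv mc) % 6 % 2 := by
        have := Nat.mod_two_eq_zero_or_one ((u - RR nv mc) % 6)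
        rcases this with h | h <;> rw [h] <;> decide
      rw [h3]
      omega
    · refine ⟨dum ⟨u - (RR nv mc + 6 * mc), by omega⟩, ?_⟩
      simp only [encN]
      omega

/-- The numbering as an equivalence. -/
noncomputable def enc (nv mc : ℕ) : Ag nv mc ≃ Fin (NN nv mc) :=
  Equiv.ofBijective (fun a => ⟨encN a, encN_lt a⟩) (by
    constructor
    · intro a b h
      exact encN_inj (congrArg Fin.val h)
    · intro u
      obtain ⟨a, ha⟩ := encN_surj (u : ℕ) u.2
      exact ⟨a, Fin.ext ha⟩)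

theorem enc_val (a : Ag nv mc) : ((enc nv mc a : Fin (NN nv mc)) : ℕ) = encN a := rfl

/-! ### The instance -/

/-- The literals of the clauses. -/
def slOf (φ : CNF2 nv) (j : Fin φ.length) (s : Bool) : Fin nv × Bool :=
  if s then (φ.get j).1 else (φ.get j).2

/-- Forbidden edges. -/
noncomputable def PP (nv mc : ℕ) : Finset (Sym2 (Fin (NN nv mc))) :=
  Finset.univ.image (fun j : Fin mc => s(enc nv mc (gad j 0 false), enc nv mc (gad j 1 true)))

/-- The forced edge. -/
noncomputable def QQ (nv mc : ℕ) : Finset (Sym2 (Fin (NN nv mc))) :=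
  {s(enc nv mc (dum 0), enc nv mc (dum 1))}

/-- The instance built from the literals of the clauses. -/
noncomputable def mkInst (sl : Fin mc → Bool → Fin nv × Bool) : Inst (NN nv mc) where
  G :=
    { Adj := fun u v => Am sl ((enc nv mc).symm u) ((enc nv mc).symm v) ≠ 0
      symm := ⟨fun _ _ h => Am_symm sl _ _ h⟩
      loopless := ⟨fun u h => h (Am_irrefl sl _)⟩ }
  rk v u := ⟨Am sl ((enc nv mc).symm v) ((enc nv mc).symm u) - 1,
    lt_of_le_of_lt (Nat.sub_le_sub_right (Am_le sl _ _) 1) (by unfold NN; omega)⟩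
  rk_inj v u w h1 h2 h3 := by
    have h4 : Am sl ((enc nv mc).symm v) ((enc nv mc).symm u) - 1 =
        Am sl ((enc nv mc).symm v) ((enc nv mc).symm w) - 1 := congrArg Fin.val h3
    have h1' : Am sl ((enc nv mc).symm v) ((enc nv mc).symm u) ≠ 0 := h1
    have h2' : Am sl ((enc nv mc).symm v) ((enc nv mc).symm w) ≠ 0 := h2
    exact (enc nv mc).symm.injective (Am_inj sl _ _ _ h1' (by omega))
  P := PP nv mc
  Q := QQ nv mc
  P_sub e he := by
    obtain ⟨j, _, rfl⟩ := Finset.mem_image.mp he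
    show Am sl ((enc nv mc).symm (enc nv mc (gad j 0 false)))
      ((enc nv mc).symm (enc nv mc (gad j 1 true))) ≠ 0
    rw [Equiv.symm_apply_apply, Equiv.symm_apply_apply, ne_mw]
  Q_sub e he := by
    rw [QQ, Finset.mem_singleton] at he
    subst he
    show Am sl ((enc nv mc).symm (enc nv mc (dum 0)))
      ((enc nv mc).symm (enc nv mc (dum 1))) ≠ 0
    rw [Equiv.symm_apply_apply, Equiv.symm_apply_apply, ne_dd]
    rfl
  disj := by
    rw [Finset.disjoint_left]
    intro e he hq
    rw [QQ, Finset.mem_singleton] at hq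
    obtain ⟨j, _, hj⟩ := Finset.mem_image.mp he
    rw [← hj, Sym2.eq_iff] at hq
    rcases hq with ⟨h, _⟩ | ⟨h, _⟩
    · have := (enc nv mc).injective h
      cases this
    · have := (enc nv mc).injective h
      cases this

variable {sl : Fin mc → Bool → Fin nv × Bool}

theorem mk_adj (a b : Ag nv mc) :
    (mkInst sl).G.Adj (enc nv mc a) (enc nv mc b) ↔ Am sl a b ≠ 0 := by
  show Am sl ((enc nv mc).symm _) ((enc nv mc).symm _) ≠ 0 ↔ _
  rw [Equiv.symm_apply_apply, Equiv.symm_apply_apply]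

theorem mk_rk (a b : Ag nv mc) :
    ((mkInst sl).rk (enc nv mc a) (enc nv mc b) : ℕ) = Am sl a b - 1 := by
  show Am sl ((enc nv mc).symm _) ((enc nv mc).symm _) - 1 = _
  rw [Equiv.symm_apply_apply, Equiv.symm_apply_apply]

/-! ### Stable matchings as involutions -/

open Classical in
/-- The involution on the agents given by a set of edges. -/
noncomputable def muOf (M : Finset (Sym2 (Fin (NN nv mc)))) (a : Ag nv mc) : Ag nv mc :=
  if h : ∃ b, s(enc nv mc a, enc nv mc b) ∈ M then h.choose else a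

theorem muOf_spec {M : Finset (Sym2 (Fin (NN nv mc)))} (hM : (mkInst sl).IsMatching M)
    {a b : Ag nv mc} (h : s(enc nv mc a, enc nv mc b) ∈ M) : muOf M a = b := by
  have hex : ∃ b, s(enc nv mc a, enc nv mc b) ∈ M := ⟨b, h⟩
  unfold muOf
  rw [dif_pos hex]
  exact (enc nv mc).injective (hM.2 _ _ _ hex.choose_spec h)

theorem muOf_mem {M : Finset (Sym2 (Fin (NN nv mc)))} {a : Ag nv mc} (h : muOf M a ≠ a) :
    s(enc nv mc a, enc nv mc (muOf M a)) ∈ M := by
  unfold muOf at h ⊢
  by_cases hex : ∃ b, s(enc nv mc a, enc nv mc b) ∈ M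
  · rw [dif_pos hex]; exact hex.choose_spec
  · rw [dif_neg hex] at h; exact absurd rfl h

theorem stab_muOf {M : Finset (Sym2 (Fin (NN nv mc)))} (hM : (mkInst sl).IsStable M) :
    Stab sl (muOf M) := by
  obtain ⟨hm, hs⟩ := hM
  refine ⟨fun a => ?_, fun a ha => ?_, fun a b hab hbl => ?_⟩
  · by_cases h : muOf M a = a
    · rw [h, h]
    · have := muOf_mem h
      rw [Sym2.eq_swap] at this
      exact muOf_spec hm this
  · rw [← mk_adj]
    exact hm.1 _ (muOf_mem ha)
  · have key : ∀ a b : Ag nv mc, Am sl a b ≠ 0 →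
        (muOf M a = a ∨ Am sl a b < Am sl a (muOf M a)) →
        (mkInst sl).Wants M (enc nv mc a) (enc nv mc b) := by
      intro a b hab h w hw
      obtain ⟨c, rfl⟩ := (enc nv mc).surjective w
      have hc := muOf_spec hm hw
      rw [Fin.lt_def, mk_rk, mk_rk]
      rcases h with h | h
      · exfalso
        rw [h] at hc
        subst hc
        have := hm.1 _ hw
        exact (mkInst sl).G.loopless.irrefl _ this
      · rw [hc] at h
        omega
    apply hs (enc nv mc a) (enc nv mc b)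
    refine ⟨(mk_adj a b).mpr hab, ?_, key a b hab hbl.1, key b a (Am_symm sl _ _ hab) hbl.2⟩
    intro hmem
    have h1 := muOf_spec hm hmem
    rcases hbl.1 with h | h
    · rw [h] at h1
      rw [h1] at hab
      exact hab (Am_irrefl sl b)
    · rw [h1] at h
      omega

/-- The matching given by an assignment and states. -/
noncomputable def MM (z : Fin nv → Bool) (st : Fin mc → Fin 3) :
    Finset (Sym2 (Fin (NN nv mc))) :=
  Finset.univ.image (fun a : Ag nv mc => s(enc nv mc a, enc nv mc (mu0 z st a)))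

theorem mem_MM (z : Fin nv → Bool) (st : Fin mc → Fin 3) (a b : Ag nv mc) :
    s(enc nv mc a, enc nv mc b) ∈ MM z st ↔ mu0 z st a = b := by
  unfold MM
  rw [Finset.mem_image]
  constructor
  · rintro ⟨c, _, hc⟩
    rw [Sym2.eq_iff] at hc
    rcases hc with ⟨h1, h2⟩ | ⟨h1, h2⟩
    · rw [← (enc nv mc).injective h1]
      exact (enc nv mc).injective h2
    · rw [← (enc nv mc).injective h1, ← (enc nv mc).injective h2]
      exact mu0_inv z st c
  · intro h
    exact ⟨a, Finset.mem_univ _, by rw [h]⟩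

theorem MM_stable {z : Fin nv → Bool} {st : Fin mc → Fin 3} (h : Compat sl z st) :
    (mkInst sl).IsStable (MM z st) := by
  refine ⟨⟨fun e he => ?_, fun v u w hu hw => ?_⟩, fun u v hbl => ?_⟩
  · obtain ⟨a, _, rfl⟩ := Finset.mem_image.mp he
    exact (mk_adj _ _).mpr (Am_mu0_ne sl z st a)
  · obtain ⟨a, rfl⟩ := (enc nv mc).surjective v
    obtain ⟨b, rfl⟩ := (enc nv mc).surjective u
    obtain ⟨c, rfl⟩ := (enc nv mc).surjective w
    rw [mem_MM] at hu hw
    rw [← hu, ← hw]
  · obtain ⟨a, rfl⟩ := (enc nv mc).surjective u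
    obtain ⟨b, rfl⟩ := (enc nv mc).surjective v
    obtain ⟨h1, _, h3, h4⟩ := hbl
    rw [mk_adj] at h1
    have key : ∀ a b : Ag nv mc, Am sl a b ≠ 0 →
        (mkInst sl).Wants (MM z st) (enc nv mc a) (enc nv mc b) →
        Am sl a b < Am sl a (mu0 z st a) := by
      intro a b hab hw
      have := hw (enc nv mc (mu0 z st a)) ((mem_MM z st a _).mpr rfl)
      rw [Fin.lt_def, mk_rk, mk_rk] at this
      omega
    exact stable0 sl h a b h1 ⟨key a b h1 h3, key b a (Am_symm sl _ _ h1) h4⟩

/-! ### Costs -/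

theorem Q_card : (mkInst sl).Q.card = 1 := Finset.card_singleton _

theorem dum_mem {M : Finset (Sym2 (Fin (NN nv mc)))} (hM : (mkInst sl).IsStable M) (d : Fin 4) :
    s(enc nv mc (dum d), enc nv mc (dum (sw d))) ∈ M := by
  have hS := stab_muOf hM
  have h1 := muOf_mem (hS.perfect (dum d))
  have h2 := hS.adj' (dum d)
  rcases he : muOf M (dum d) with ⟨k, i, _ | _⟩ | ⟨j, t, _ | _⟩ | ⟨d'⟩
  · rw [he] at h2; exact absurd rfl h2
  · rw [he] at h2; exact absurd rfl h2
  · rw [he] at h2; exact absurd rfl h2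
  · rw [he] at h2; exact absurd rfl h2
  · rw [he] at h1 h2
    rw [ne_dd] at h2
    rw [← h2]; exact h1

theorem Q_lt {M : Finset (Sym2 (Fin (NN nv mc)))} (hM : (mkInst sl).IsStable M) :
    (mkInst sl).Q.card < M.card := by
  rw [Q_card]
  rw [Finset.one_lt_card]
  refine ⟨_, dum_mem hM 0, _, dum_mem hM 2, ?_⟩
  rw [ne_eq, Sym2.eq_iff]
  rintro (⟨h, _⟩ | ⟨h, _⟩)
  · have := (enc nv mc).injective h
    simp only [dum.injEq] at this
    exact absurd this (by decide)
  · have := (enc nv mc).injective h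
    simp only [dum.injEq] at this
    exact absurd this (by decide)

/-- The clauses with both literals false. -/
def falses (sl : Fin mc → Bool → Fin nv × Bool) (z : Fin nv → Bool) : Finset (Fin mc) :=
  Finset.univ.filter (fun j => z (sl j true).1 ≠ (sl j true).2 ∧ z (sl j false).1 ≠ (sl j false).2)

theorem cost_ge {M : Finset (Sym2 (Fin (NN nv mc)))} (hM : (mkInst sl).IsStable M) :
    (falses sl (zOf (muOf M))).card ≤ (mkInst sl).cost M := by
  have hS := stab_muOf hM
  have h1 : (falses sl (zOf (muOf M))).card ≤ (M ∩ (mkInst sl).P).card := by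
    apply Finset.card_le_card_of_injOn
      (fun j => s(enc nv mc (gad j 0 false), enc nv mc (gad j 1 true)))
    · intro j hj
      have hj' := (Finset.mem_filter.mp hj).2
      have h2 := hS.unsat_edge j hj'.1 hj'.2
      rw [Finset.mem_coe, Finset.mem_inter]
      refine ⟨?_, Finset.mem_image.mpr ⟨j, Finset.mem_univ _, rfl⟩⟩
      have h3 := muOf_mem (hS.perfect (gad j 0 false))
      rw [h2] at h3
      exact h3
    · intro j _ j' _ h
      simp only [Sym2.eq_iff] at h
      rcases h with ⟨h, _⟩ | ⟨h, _⟩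
      · have := (enc nv mc).injective h
        simp only [gad.injEq] at this
        exact this.1
      · have := (enc nv mc).injective h
        simp only [gad.injEq] at this
        exact this.1
  unfold Inst.cost
  omega

theorem cost_MM (z : Fin nv → Bool) (st : Fin mc → Fin 3) :
    (mkInst sl).cost (MM z st) ≤ (Finset.univ.filter (fun j => st j = 1)).card := by
  have h1 : ((mkInst sl).Q \ MM z st).card = 0 := by
    rw [Finset.card_eq_zero, Finset.sdiff_eq_empty_iff_subset]
    intro e he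
    have he' : e = s(enc nv mc (dum 0), enc nv mc (dum 1)) := Finset.mem_singleton.mp he
    rw [he', mem_MM]
    rfl
  have h2 : (MM z st ∩ (mkInst sl).P) ⊆ (Finset.univ.filter (fun j => st j = 1)).image
      (fun j => s(enc nv mc (gad j 0 false), enc nv mc (gad j 1 true))) := by
    intro e he
    rw [Finset.mem_inter] at he
    obtain ⟨h3, h4⟩ := he
    obtain ⟨j, _, rfl⟩ := Finset.mem_image.mp h4
    rw [mem_MM] at h3
    simp only [mu0, gad.injEq] at h3
    refine Finset.mem_image.mpr ⟨j, Finset.mem_filter.mpr ⟨Finset.mem_univ _, ?_⟩, rfl⟩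
    simpa using h3.2.1
  unfold Inst.cost
  have h3 := (Finset.card_le_card h2).trans Finset.card_image_le
  omega

/-- Optimal states for a given assignment. -/
def bestSt (sl : Fin mc → Bool → Fin nv × Bool) (z : Fin nv → Bool) (j : Fin mc) : Fin 3 :=
  if z (sl j true).1 = (sl j true).2 then 0 else if z (sl j false).1 = (sl j false).2 then 2 else 1

theorem compat_best (z : Fin nv → Bool) : Compat sl z (bestSt sl z) := by
  intro j
  constructor
  · intro h
    unfold bestSt
    rw [if_neg h]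
    split_ifs <;> decide
  · intro h
    unfold bestSt
    rw [if_neg h]
    split_ifs <;> decide

theorem best_eq (z : Fin nv → Bool) :
    Finset.univ.filter (fun j => bestSt sl z j = 1) = falses sl z := by
  unfold falses
  apply Finset.filter_congr
  intro j _
  unfold bestSt
  by_cases h1 : z (sl j true).1 = (sl j true).2
  · simp [h1]
  · by_cases h2 : z (sl j false).1 = (sl j false).2
    · simp [h1, h2]
    · simp [h1, h2]

/-- The instance of a formula. -/
noncomputable def instOf (φ : CNF2 nv) : Inst (NN nv φ.length) := mkInst (slOf φ)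

theorem unsat_eq (φ : CNF2 nv) (z : Fin nv → Bool) : unsat φ z = (falses (slOf φ) z).card := rfl

/-- The reduction preserves approximation. -/
theorem main_ineq (ρ : ℝ) (φ : CNF2 nv) {M : Finset (Sym2 (Fin (NN nv φ.length)))}
    (hM : (instOf φ).IsStable M)
    (hopt : ∀ M', (instOf φ).IsStable M' → ((instOf φ).cost M : ℝ) ≤ ρ * ((instOf φ).cost M' : ℝ))
    (hρ : 0 ≤ ρ) (z : Fin nv → Bool) :
    (unsat φ (zOf (muOf M)) : ℝ) ≤ ρ * (unsat φ z : ℝ) := by
  rw [unsat_eq, unsat_eq]
  have h1 : ((falses (slOf φ) (zOf (muOf M))).card : ℝ) ≤ ((instOf φ).cost M : ℝ) := by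
    exact_mod_cast cost_ge hM
  have h2 := hopt _ (MM_stable (compat_best z))
  have h3 : ((instOf φ).cost (MM z (bestSt (slOf φ) z)) : ℝ) ≤
      ((falses (slOf φ) z).card : ℝ) := by
    rw [← best_eq]
    exact_mod_cast cost_MM (sl := slOf φ) z (bestSt (slOf φ) z)
  exact h1.trans (h2.trans (mul_le_mul_of_nonneg_left h3 hρ))

end Pool.Agent.SRViol
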