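import Mathlib
import Pool.Agent.SRViol.Bridge
import Pool.Agent.Lib.PolyTime.PF

/-!
# The reduction on bit strings
-/

namespace Pool.Agent.SRViol

open Ag PolyTime

/-- The matrix of ranks, numerically. -/
def matN (nv mc : ℕ) (lb : ℕ → Bool) (u v : ℕ) : ℕ :=
  if u < RR nv mc then
    (if v < RR nv mc then
      (if u % (2 * nv) / 2 = v % (2 * nv) / 2 ∧ ¬ u % 2 = v % 2 then
        (if u % 2 = 0 then
          (if v / (2 * nv) = u / (2 * nv) then 1
            else if v / (2 * nv) = (u / (2 * nv) + 1) % (2 * mc + 2) then 3 else 0)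
        else
          (if u / (2 * nv) = (v / (2 * nv) + 1) % (2 * mc + 2) then 1
            else if v / (2 * nv) = u / (2 * nv) then 3 else 0))
      else 0)
    else if v < RR nv mc + 6 * mc then
      (if (v - RR nv mc) % 6 / 2 = 0 ∧ u / (2 * nv) = 2 * ((v - RR nv mc) / 6) + (1 - v % 2) ∧
        lb u = true then 2 else 0)
    else 0)
  else if u < RR nv mc + 6 * mc then
    (if v < RR nv mc then
      (if (u - RR nv mc) % 6 / 2 = 0 ∧ v / (2 * nv) = 2 * ((u - RR nv mc) / 6) + (1 - u % 2) ∧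
        lb v = true then 3 else 0)
    else if v < RR nv mc + 6 * mc then
      (if (u - RR nv mc) / 6 = (v - RR nv mc) / 6 ∧ ¬ u % 2 = v % 2 then
        (if u % 2 = 0 then
          (if (v - RR nv mc) % 6 / 2 = (u - RR nv mc) % 6 / 2 then 1
            else if (v - RR nv mc) % 6 / 2 = ((u - RR nv mc) % 6 / 2 + 1) % 3 then 2 else 4)
        else
          (if (v - RR nv mc) % 6 / 2 = ((u - RR nv mc) % 6 / 2 + 1) % 3 then 1
            else if (v - RR nv mc) % 6 / 2 = ((u - RR nv mc) % 6 / 2 + 2) % 3 then 2 else 4))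
      else 0)
    else 0)
  else
    (if v < RR nv mc + 6 * mc then 0
    else if (u % 2 = 0 ∧ v = u + 1) ∨ (u % 2 = 1 ∧ u = v + 1) then 1 else 0)

variable {nv mc : ℕ}

theorem dum_ge (d : Fin 4) : ¬ (RR nv mc + 6 * mc + (d : ℕ)) < RR nv mc + 6 * mc := by omega

theorem dum_ge' (d : Fin 4) : ¬ (RR nv mc + 6 * mc + (d : ℕ)) < RR nv mc := by omega

theorem gad_ge (j : Fin mc) (t : Fin 3) (s : Bool) :
    ¬ RR nv mc + (6 * (j : ℕ) + (2 * (t : ℕ) + s.toNat)) < RR nv mc := by omega

theorem fin_add_one (k k' : Fin (2 * mc + 2)) :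
    (k' : ℕ) = ((k : ℕ) + 1) % (2 * mc + 2) ↔ k' = k + 1 := by
  rw [Fin.ext_iff, Fin.val_add]
  rfl

theorem fin3_add_one (t t' : Fin 3) : (t' : ℕ) = ((t : ℕ) + 1) % 3 ↔ t' = t + 1 := by
  rw [Fin.ext_iff, Fin.val_add]
  rfl

theorem fin3_add_two (t t' : Fin 3) : (t' : ℕ) = ((t : ℕ) + 2) % 3 ↔ t' = t + 2 := by
  rw [Fin.ext_iff, Fin.val_add]
  rfl

theorem fin_val_eq {n : ℕ} (k k' : Fin n) : (k' : ℕ) = (k : ℕ) ↔ k' = k := by
  rw [Fin.ext_iff]

theorem mat_eq (sl : Fin mc → Bool → Fin nv × Bool) (lb : ℕ → Bool)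
    (hlb : ∀ (i : Fin nv) (s : Bool) (j : Fin mc) (s' : Bool),
      lb (((slot j s' : Fin (2 * mc + 2)) : ℕ) * (2 * nv) + (2 * (i : ℕ) + s.toNat)) = true ↔
        sl j s' = (i, !s)) (a b : Ag nv mc) :
    matN nv mc lb (encN a) (encN b) = Am sl a b := by
  have hslot : ∀ (k : Fin (2 * mc + 2)) (j : Fin mc) (s' : Bool),
      (k : ℕ) = 2 * (j : ℕ) + (1 - s'.toNat) ↔ k = slot j s' := by
    intro k j s'
    rw [Fin.ext_iff]
    cases s' <;> simp [slot]
  have hrg : ∀ (k : Fin (2 * mc + 2)) (i : Fin nv) (s : Bool) (j : Fin mc) (t : Fin 3) (s' : Bool),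
      ((t : ℕ) = 0 ∧ (k : ℕ) = 2 * (j : ℕ) + (1 - s'.toNat) ∧
        lb ((k : ℕ) * (2 * nv) + (2 * (i : ℕ) + s.toNat)) = true) ↔
      (t = 0 ∧ k = slot j s' ∧ sl j s' = (i, !s)) := by
    intro k i s j t s'
    rw [hslot]
    constructor
    · rintro ⟨h1, h2, h3⟩
      subst h2
      exact ⟨Fin.ext h1, rfl, (hlb i s j s').mp h3⟩
    · rintro ⟨h1, h2, h3⟩
      subst h2
      exact ⟨by rw [h1]; rfl, rfl, (hlb i s j s').mpr h3⟩
  rcases a with ⟨k, i, s⟩ | ⟨j, t, s⟩ | ⟨d⟩ <;> rcases b with ⟨k', i', s'⟩ | ⟨j', t', s'⟩ | ⟨d'⟩ <;>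
    simp only [encN]
  · unfold matN
    rw [if_pos (ring_lt k i s), if_pos (ring_lt k' i' s')]
    simp only [ring_kk, ring_ii, ring_ss, fin_add_one, fin_val_eq]
    cases s <;> cases s' <;> simp [Am]
  · unfold matN
    rw [if_pos (ring_lt k i s), if_neg (gad_ge j' t' s'), if_pos (gad_lt j' t' s')]
    simp only [ring_kk, gad_jj, gad_tt, gad_ss]
    rw [if_congr (hrg k i s j' t' s') rfl rfl]
    cases s <;> cases s' <;> rfl
  · unfold matN
    rw [if_pos (ring_lt k i s), if_neg (dum_ge' d'), if_neg (dum_ge d')]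
    cases s <;> rfl
  · unfold matN
    rw [if_neg (gad_ge j t s), if_pos (gad_lt j t s), if_pos (ring_lt k' i' s')]
    simp only [ring_kk, gad_jj, gad_tt, gad_ss]
    rw [if_congr (hrg k' i' s' j t s) rfl rfl]
    cases s <;> cases s' <;> rfl
  · unfold matN
    rw [if_neg (gad_ge j t s), if_pos (gad_lt j t s), if_neg (gad_ge j' t' s'),
      if_pos (gad_lt j' t' s')]
    simp only [gad_jj, gad_tt, gad_ss, fin3_add_one, fin3_add_two, fin_val_eq]
    cases s <;> cases s' <;> simp [Am]
  · unfold matN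
    rw [if_neg (gad_ge j t s), if_pos (gad_lt j t s), if_neg (dum_ge' d'), if_neg (dum_ge d')]
    cases s <;> rfl
  · unfold matN
    rw [if_neg (dum_ge' d), if_neg (dum_ge d), if_pos (by
      have := ring_lt k' i' s'
      omega)]
    cases s' <;> rfl
  · unfold matN
    rw [if_neg (dum_ge' d), if_neg (dum_ge d), if_pos (gad_lt j' t' s')]
    cases s' <;> rfl
  · unfold matN
    rw [if_neg (dum_ge' d), if_neg (dum_ge d), if_neg (dum_ge d')]
    simp only [Am]
    have h0 := RR_even nv mc
    have h1 : ∀ d d' : Fin 4, (d' = sw d) ↔ (((d : ℕ) % 2 = 0 ∧ (d' : ℕ) = d + 1) ∨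
      ((d : ℕ) % 2 = 1 ∧ (d : ℕ) = d' + 1)) := by decide
    rw [if_congr (h1 d d') rfl rfl]
    apply if_congr _ rfl rfl
    omega

/-! ### Reading the formula -/

theorem getElem?_flatMap_block {α β : Type*} (f : α → List β) (w : ℕ)
    (hf : ∀ a, (f a).length = w) : ∀ (l : List α) (j r : ℕ), r < w → ∀ (hj : j < l.length),
      (l.flatMap f)[j * w + r]? = (f l[j])[r]?
  | [], j, r, _, hj => absurd hj (Nat.not_lt_zero _)
  | a :: l, 0, r, hr, _ => by
      simp only [List.flatMap_cons, Nat.zero_mul, Nat.zero_add, List.getElem_cons_zero]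
      rw [List.getElem?_append_left (by rw [hf]; exact hr)]
  | a :: l, j + 1, r, hr, hj => by
      simp only [List.flatMap_cons, List.getElem_cons_succ]
      rw [List.getElem?_append_right (by rw [hf, Nat.add_mul]; omega), hf]
      have : (j + 1) * w + r - w = j * w + r := by rw [Nat.add_mul]; omega
      rw [this]
      exact getElem?_flatMap_block f w hf l j r hr (by simpa using hj)

theorem length_encodeLit (l : Lit nv) : (encodeLit l).length = 2 * nv := by
  simp [encodeLit]

theorem encodeCNF_eq (φ : CNF2 nv) : encodeCNF φ =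
    List.replicate nv true ++ (false :: φ.flatMap (fun c => encodeLit c.1 ++ encodeLit c.2)) := by
  unfold encodeCNF unary
  simp

theorem length_encodeCNF (φ : CNF2 nv) :
    (encodeCNF φ).length = nv + 1 + φ.length * (4 * nv) := by
  rw [encodeCNF_eq]
  have : (φ.flatMap (fun c => encodeLit c.1 ++ encodeLit c.2)).length = φ.length * (4 * nv) := by
    rw [List.length_flatMap]
    simp only [List.length_append, length_encodeLit]
    rw [List.map_const', List.sum_replicate, smul_eq_mul]
    ring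
  simp only [List.length_append, List.length_replicate, List.length_cons, this]
  ring

/-- The bits of the literals. -/
theorem lit_bit (φ : CNF2 nv) (i : Fin nv) (s : Bool) (j : Fin φ.length) (s' : Bool) :
    (encodeCNF φ).getD (nv + 1 + (((slot j s' : Fin (2 * φ.length + 2)) : ℕ) * (2 * nv) +
      (2 * (i : ℕ) + s.toNat))) false = true ↔ slOf φ j s' = (i, !s) := by
  have hi := i.2
  have hs := toNat_le s
  have hbit : ∀ l : Lit nv, (encodeLit l)[2 * (i : ℕ) + s.toNat]? = some true ↔ l = (i, !s) := by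
    intro l
    unfold encodeLit
    rw [List.getElem?_map, List.getElem?_range (by omega)]
    simp only [Option.map_some, Option.some.injEq, decide_eq_true_eq]
    obtain ⟨i', b⟩ := l
    simp only [Prod.mk.injEq, Fin.ext_iff]
    cases s <;> cases b <;> simp <;> omega
  have hblock : ∀ r, r < 4 * nv →
      (encodeCNF φ)[nv + 1 + ((j : ℕ) * (4 * nv) + r)]? =
        (encodeLit (φ.get j).1 ++ encodeLit (φ.get j).2)[r]? := by
    intro r hr
    rw [encodeCNF_eq, List.getElem?_append_right (by rw [List.length_replicate]; omega),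
      List.length_replicate]
    have : nv + 1 + ((j : ℕ) * (4 * nv) + r) - nv = ((j : ℕ) * (4 * nv) + r) + 1 := by omega
    rw [this, List.getElem?_cons_succ, getElem?_flatMap_block _ (4 * nv) (fun c => by
      rw [List.length_append, length_encodeLit, length_encodeLit]; ring) φ j r hr j.2]
    rfl
  have hget : ∀ (l : List Bool) (k : ℕ), l.getD k false = true ↔ l[k]? = some true := by
    intro l k
    rw [List.getD_eq_getElem?_getD]
    rcases l[k]? with _ | b
    · simp
    · cases b <;> simp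
  rw [hget]
  cases s'
  · have e1 : nv + 1 + (((slot j false : Fin (2 * φ.length + 2)) : ℕ) * (2 * nv) +
        (2 * (i : ℕ) + s.toNat)) =
        nv + 1 + ((j : ℕ) * (4 * nv) + (2 * nv + (2 * (i : ℕ) + s.toNat))) := by
      simp only [slot, Bool.false_eq_true, if_false]
      ring
    rw [e1, hblock _ (by omega), List.getElem?_append_right (by rw [length_encodeLit]; omega),
      length_encodeLit, show 2 * nv + (2 * (i : ℕ) + s.toNat) - 2 * nv = 2 * (i : ℕ) + s.toNat by
        omega, hbit]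
    rfl
  · have e1 : nv + 1 + (((slot j true : Fin (2 * φ.length + 2)) : ℕ) * (2 * nv) +
        (2 * (i : ℕ) + s.toNat)) = nv + 1 + ((j : ℕ) * (4 * nv) + (2 * (i : ℕ) + s.toNat)) := by
      simp only [slot, if_true]
      ring
    rw [e1, hblock _ (by omega), List.getElem?_append_left (by rw [length_encodeLit]; omega), hbit]
    rfl

/-- The number of variables (number of leading ones). -/
def nvX (x : List Bool) : ℕ :=
  ((Finset.range x.length).filter (fun p => ∀ q < p + 1, x.getD q false = true)).card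

/-- The number of clauses. -/
def mcX (x : List Bool) : ℕ := (x.length - (nvX x + 1)) / (4 * nvX x)

theorem nvX_eq (φ : CNF2 nv) : nvX (encodeCNF φ) = nv := by
  unfold nvX
  have : (Finset.range (encodeCNF φ).length).filter
      (fun p => ∀ q < p + 1, (encodeCNF φ).getD q false = true) = Finset.range nv := by
    ext p
    rw [Finset.mem_filter, Finset.mem_range, Finset.mem_range, length_encodeCNF]
    constructor
    · rintro ⟨_, h2⟩
      by_contra h3
      have h4 := h2 nv (by omega)
      rw [encodeCNF_eq, List.getD_eq_getElem?_getD,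
        List.getElem?_append_right (by rw [List.length_replicate])] at h4
      simp at h4
    · intro h1
      refine ⟨by omega, fun q hq => ?_⟩
      rw [encodeCNF_eq, List.getD_eq_getElem?_getD,
        List.getElem?_append_left (by rw [List.length_replicate]; omega),
        List.getElem?_replicate_of_lt (by omega)]
      rfl
  rw [this, Finset.card_range]

theorem mcX_eq (φ : CNF2 nv) : mcX (encodeCNF φ) = φ.length := by
  unfold mcX
  rw [nvX_eq, length_encodeCNF, Nat.add_sub_cancel_left]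
  rcases Nat.eq_zero_or_pos nv with h | h
  · subst h
    have : φ = [] := by
      rcases φ with _ | ⟨c, l⟩
      · rfl
      · exact absurd c.1.1.2 (Nat.not_lt_zero _)
    subst this
    simp
  · exact Nat.mul_div_cancel _ (by omega)

/-- The rank matrix read off the input. -/
def matX (x : List Bool) (u v : ℕ) : ℕ :=
  matN (nvX x) (mcX x) (fun w => x.getD (nvX x + 1 + w) false) u v

theorem matX_eq (φ : CNF2 nv) (a b : Ag nv φ.length) :
    matX (encodeCNF φ) (encN a) (encN b) = Am (slOf φ) a b := by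
  unfold matX
  rw [nvX_eq, mcX_eq]
  exact mat_eq (slOf φ) _ (fun i s j s' => lit_bit φ i s j s') a b

/-- The forbidden edges, numerically. -/
def pN (nv mc v u : ℕ) : Prop :=
  (¬ v < RR nv mc ∧ v < RR nv mc + 6 * mc ∧ (v - RR nv mc) % 6 = 0 ∧ u = v + 3) ∨
  (¬ u < RR nv mc ∧ u < RR nv mc + 6 * mc ∧ (u - RR nv mc) % 6 = 0 ∧ v = u + 3)

/-- The forced edge, numerically. -/
def qN (nv mc v u : ℕ) : Prop :=
  (v = RR nv mc + 6 * mc ∧ u = RR nv mc + 6 * mc + 1) ∨
  (u = RR nv mc + 6 * mc ∧ v = RR nv mc + 6 * mc + 1)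

theorem enc_eq_iff {u : Fin (NN nv mc)} {a : Ag nv mc} : enc nv mc a = u ↔ encN a = (u : ℕ) := by
  rw [Fin.ext_iff]; rfl

theorem mem_PP (v u : Fin (NN nv mc)) : s(v, u) ∈ PP nv mc ↔ pN nv mc v u := by
  unfold PP pN
  rw [Finset.mem_image]
  have e1 : ∀ j : Fin mc, encN (gad j 0 false : Ag nv mc) = RR nv mc + 6 * (j : ℕ) := by
    intro j; simp [encN]
  have e2 : ∀ j : Fin mc, encN (gad j 1 true : Ag nv mc) = RR nv mc + 6 * (j : ℕ) + 3 := by
    intro j; simp [encN]; ring
  constructor
  · rintro ⟨j, _, hj⟩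
    have hj2 := j.2
    rw [Sym2.eq_iff, enc_eq_iff, enc_eq_iff, enc_eq_iff, enc_eq_iff, e1, e2] at hj
    omega
  · rintro (⟨h1, h2, h3, h4⟩ | ⟨h1, h2, h3, h4⟩)
    · refine ⟨⟨((v : ℕ) - RR nv mc) / 6, by omega⟩, Finset.mem_univ _, ?_⟩
      rw [Sym2.eq_iff, enc_eq_iff, enc_eq_iff, enc_eq_iff, enc_eq_iff, e1, e2]
      left
      simp only
      omega
    · refine ⟨⟨((u : ℕ) - RR nv mc) / 6, by omega⟩, Finset.mem_univ _, ?_⟩
      rw [Sym2.eq_iff, enc_eq_iff, enc_eq_iff, enc_eq_iff, enc_eq_iff, e1, e2]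
      right
      simp only
      omega

theorem mem_QQ (v u : Fin (NN nv mc)) : s(v, u) ∈ QQ nv mc ↔ qN nv mc v u := by
  unfold QQ qN
  rw [Finset.mem_singleton, eq_comm, Sym2.eq_iff, enc_eq_iff, enc_eq_iff, enc_eq_iff, enc_eq_iff]
  have e1 : encN (dum 0 : Ag nv mc) = RR nv mc + 6 * mc := by simp [encN]
  have e2 : encN (dum 1 : Ag nv mc) = RR nv mc + 6 * mc + 1 := by simp [encN]
  rw [e1, e2]
  omega

/-- The number of agents read off the input. -/
def NX (x : List Bool) : ℕ := NN (nvX x) (mcX x)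

open Classical in
/-- The entries of the list of numbers encoding the instance. -/
noncomputable def entry (x : List Bool) (k : ℕ) : ℕ :=
  if k = 0 then NX x
  else if k - 1 < NX x * NX x then matX x ((k - 1) / NX x) ((k - 1) % NX x)
  else if k - 1 < NX x * NX x + NX x * NX x then
    (if pN (nvX x) (mcX x) ((k - 1 - NX x * NX x) / NX x) ((k - 1 - NX x * NX x) % NX x)
      then 1 else 0)
  else
    (if qN (nvX x) (mcX x) ((k - 1 - (NX x * NX x + NX x * NX x)) / NX x)
      ((k - 1 - (NX x * NX x + NX x * NX x)) % NX x) then 1 else 0)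

/-- The reduction. -/
noncomputable def red (x : List Bool) : List Bool :=
  unary ((List.range (1 + 3 * (NX x * NX x))).map (entry x))

theorem table_eq {n : ℕ} (f : Fin n → Fin n → ℕ) (g : ℕ → ℕ → ℕ)
    (h : ∀ u v : Fin n, f u v = g u v) :
    table f = (List.range (n * n)).map (fun k => g (k / n) (k % n)) := by
  unfold table
  apply List.ext_getElem
  · simp
  · intro i h1 h2
    rw [List.getElem_ofFn, List.getElem_map, List.getElem_range, h]
    rfl

theorem red_encode (φ : CNF2 nv) : red (encodeCNF φ) = encodeInst (instOf φ) := by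
  classical
  unfold red encodeInst
  have hN : NX (encodeCNF φ) = NN nv φ.length := by unfold NX; rw [nvX_eq, mcX_eq]
  have t1 : table (fun v u : Fin (NN nv φ.length) =>
      if (instOf φ).G.Adj v u then 1 + ((instOf φ).rk v u : ℕ) else 0) =
      (List.range (NN nv φ.length * NN nv φ.length)).map
        (fun k => matX (encodeCNF φ) (k / NN nv φ.length) (k % NN nv φ.length)) := by
    apply table_eq
    intro u v
    obtain ⟨a, rfl⟩ := (enc nv φ.length).surjective u
    obtain ⟨b, rfl⟩ := (enc nv φ.length).surjective v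
    rw [enc_val, enc_val, matX_eq]
    unfold instOf
    by_cases h : Am (slOf φ) a b = 0
    · rw [if_neg (fun h' => (mk_adj (sl := slOf φ) a b).mp h' h), h]
    · rw [if_pos ((mk_adj (sl := slOf φ) a b).mpr h)]
      have := mk_rk (sl := slOf φ) a b
      omega
  have t2 : table (fun v u : Fin (NN nv φ.length) => if s(v, u) ∈ (instOf φ).P then 1 else 0) =
      (List.range (NN nv φ.length * NN nv φ.length)).map
        (fun k => if pN nv φ.length (k / NN nv φ.length) (k % NN nv φ.length) then 1 else 0) := by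
    apply table_eq _ (fun u v => if pN nv φ.length u v then 1 else 0)
    intro u v
    exact if_congr (mem_PP u v) rfl rfl
  have t3 : table (fun v u : Fin (NN nv φ.length) => if s(v, u) ∈ (instOf φ).Q then 1 else 0) =
      (List.range (NN nv φ.length * NN nv φ.length)).map
        (fun k => if qN nv φ.length (k / NN nv φ.length) (k % NN nv φ.length) then 1 else 0) := by
    apply table_eq _ (fun u v => if qN nv φ.length u v then 1 else 0)
    intro u v
    exact if_congr (mem_QQ u v) rfl rfl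
  rw [t1, t2, t3]
  congr 1
  set N := NN nv φ.length with hNdef
  have hsplit : (List.range (1 + 3 * (N * N))).map (entry (encodeCNF φ)) =
      entry (encodeCNF φ) 0 ::
      ((List.range (N * N)).map (fun k => entry (encodeCNF φ) (1 + k)) ++
      ((List.range (N * N)).map (fun k => entry (encodeCNF φ) (1 + (N * N + k))) ++
      (List.range (N * N)).map (fun k => entry (encodeCNF φ) (1 + (N * N + (N * N + k)))))) := by
    rw [show 1 + 3 * (N * N) = 1 + (N * N + (N * N + N * N)) by ring]
    simp only [List.range_add, List.map_append, List.map_map, List.range_one, List.map_cons,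
      List.cons_append, List.nil_append]
    rfl
  rw [hN, hsplit]
  have e0 : entry (encodeCNF φ) 0 = N := by
    unfold entry
    rw [if_pos rfl, hN]
  rw [e0]
  congr 1
  congr 1
  · apply List.map_congr_left
    intro k hk
    rw [List.mem_range] at hk
    unfold entry
    rw [if_neg (by omega), Nat.add_sub_cancel_left, hN, if_pos hk]
  congr 1
  · apply List.map_congr_left
    intro k hk
    rw [List.mem_range] at hk
    unfold entry
    rw [if_neg (by omega), Nat.add_sub_cancel_left, hN, if_neg (by omega), if_pos (by omega),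
      Nat.add_sub_cancel_left, nvX_eq, mcX_eq]
  · apply List.map_congr_left
    intro k hk
    rw [List.mem_range] at hk
    unfold entry
    rw [if_neg (by omega), Nat.add_sub_cancel_left, hN, if_neg (by omega), if_neg (by omega),
      nvX_eq, mcX_eq, show N * N + (N * N + k) - (N * N + N * N) = k by omega]

/-! ### Decoding -/

/-- Reading the assignment off a matching. -/
def dec (y : List Bool) : List Bool :=
  (List.range (Nat.sqrt y.length)).map
    (fun i => decide ((y.getD (2 * i * Nat.sqrt y.length + (2 * i + 1)) false).toNat ≠ 0))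

theorem dec_encode {M : Finset (Sym2 (Fin (NN nv mc)))} {sl : Fin mc → Bool → Fin nv × Bool}
    (hM : (mkInst sl).IsStable M) (i : Fin nv) :
    (dec (encodeMatching M)).getD i false = zOf (muOf M) i := by
  have hlen : (encodeMatching M).length = NN nv mc * NN nv mc := by simp [encodeMatching]
  have hs : Nat.sqrt (encodeMatching M).length = NN nv mc := by rw [hlen, Nat.sqrt_eq]
  have hi := i.2
  have hR : 2 * nv ≤ RR nv mc := by
    unfold RR
    exact Nat.le_mul_of_pos_left _ (by omega)
  have hN : RR nv mc ≤ NN nv mc := by unfold NN; omega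
  unfold dec
  rw [hs, List.getD_eq_getElem?_getD, List.getElem?_map, List.getElem?_range (by omega)]
  simp only [Option.map_some, Option.getD_some]
  have e1 : encN (ring 0 i false : Ag nv mc) = 2 * (i : ℕ) := by simp [encN]
  have e2 : encN (ring 0 i true : Ag nv mc) = 2 * (i : ℕ) + 1 := by simp [encN]
  have hlt : 2 * (i : ℕ) * NN nv mc + (2 * (i : ℕ) + 1) < NN nv mc * NN nv mc := by
    calc 2 * (i : ℕ) * NN nv mc + (2 * (i : ℕ) + 1) < 2 * (i : ℕ) * NN nv mc + NN nv mc := by omega
      _ = (2 * (i : ℕ) + 1) * NN nv mc := by ring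
      _ ≤ _ := Nat.mul_le_mul_right _ (by omega)
  have hbit : (encodeMatching M).getD (2 * (i : ℕ) * NN nv mc + (2 * (i : ℕ) + 1)) false =
      decide (s(enc nv mc (ring 0 i false), enc nv mc (ring 0 i true)) ∈ M) := by
    rw [List.getD_eq_getElem _ _ (by rw [hlen]; exact hlt)]
    unfold encodeMatching
    rw [List.getElem_ofFn]
    have e : finProdFinEquiv.symm (⟨2 * (i : ℕ) * NN nv mc + (2 * (i : ℕ) + 1), hlt⟩ :
        Fin (NN nv mc * NN nv mc)) =
        (enc nv mc (ring 0 i false), enc nv mc (ring 0 i true)) := by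
      rw [Equiv.symm_apply_eq]
      apply Fin.ext
      simp only [finProdFinEquiv_apply_val, enc_val, e1, e2]
      ring
    have h1 : Fin.divNat (⟨2 * (i : ℕ) * NN nv mc + (2 * (i : ℕ) + 1), hlt⟩ :
        Fin (NN nv mc * NN nv mc)) = enc nv mc (ring 0 i false) := congrArg Prod.fst e
    have h2 : Fin.modNat (⟨2 * (i : ℕ) * NN nv mc + (2 * (i : ℕ) + 1), hlt⟩ :
        Fin (NN nv mc * NN nv mc)) = enc nv mc (ring 0 i true) := congrArg Prod.snd e
    rw [h1, h2]
  rw [hbit]
  unfold zOf
  have hiff : (s(enc nv mc (ring 0 i false), enc nv mc (ring 0 i true)) ∈ M) ↔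
      muOf M (ring 0 i false) = ring 0 i true := by
    constructor
    · exact fun h => muOf_spec hM.1 h
    · intro h
      have := muOf_mem ((stab_muOf hM).perfect (ring 0 i false))
      rw [h] at this
      exact this
  by_cases h : muOf M (ring 0 i false) = ring 0 i true
  · simp [h, hiff.mpr h]
  · have h' : ¬ s(enc nv mc (ring 0 i false), enc nv mc (ring 0 i true)) ∈ M :=
      fun h1 => h (hiff.mp h1)
    rw [decide_eq_false h, decide_eq_false h']
    rfl

/-! ### Polynomial time -/

section PF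

variable {α : Type} [Ctx α]

theorem pf_nvX : PF (fun (x : List Bool) (_ : α) => nvX x) := by
  unfold nvX
  refine PF.count (P := fun x (p : α × ℕ) => ∀ q < p.2 + 1, x.getD q false = true) PF.len ?_
  exact PD.forall_lt (P := fun x (p : (α × ℕ) × ℕ) => x.getD p.2 false = true)
    (PF.snd.add (PF.const 1)) (PD.bit PF.snd)

theorem pf_mcX : PF (fun (x : List Bool) (_ : α) => mcX x) :=
  (PF.len.sub (pf_nvX.add (PF.const 1))).div ((PF.const 4).mul pf_nvX)

theorem pf_RR : PF (fun (x : List Bool) (_ : α) => RR (nvX x) (mcX x)) :=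
  (((PF.const 2).mul pf_mcX).add (PF.const 2)).mul ((PF.const 2).mul pf_nvX)

theorem pf_R6 : PF (fun (x : List Bool) (_ : α) => RR (nvX x) (mcX x) + 6 * mcX x) :=
  pf_RR.add ((PF.const 6).mul pf_mcX)

theorem pf_NX : PF (fun (x : List Bool) (_ : α) => NX x) :=
  pf_R6.add (PF.const 4)

theorem pf_matX {U V : List Bool → α → ℕ} (hU : PF U) (hV : PF V) :
    PF (fun x a => matX x (U x a) (V x a)) := by
  unfold matX matN
  have c2 : PF (fun (_ : List Bool) (_ : α) => 2) := PF.const 2
  have c6 : PF (fun (_ : List Bool) (_ : α) => 6) := PF.const 6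
  have c0 : PF (fun (_ : List Bool) (_ : α) => 0) := PF.const 0
  have c1 : PF (fun (_ : List Bool) (_ : α) => 1) := PF.const 1
  have c3 : PF (fun (_ : List Bool) (_ : α) => 3) := PF.const 3
  have c4 : PF (fun (_ : List Bool) (_ : α) => 4) := PF.const 4
  have hn : PF (fun (x : List Bool) (_ : α) => 2 * nvX x) := c2.mul pf_nvX
  have hL : PF (fun (x : List Bool) (_ : α) => 2 * mcX x + 2) := (c2.mul pf_mcX).add c2
  have hgU := (hU.sub pf_RR)
  have hgV := (hV.sub pf_RR)
  have hb : ∀ {W : List Bool → α → ℕ}, PF W →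
      PD (fun x a => (fun w => x.getD (nvX x + 1 + w) false) (W x a) = true) :=
    fun hW => PD.bit ((pf_nvX.add c1).add hW)
  refine PF.ite (PD.lt hU pf_RR) ?_ (PF.ite (PD.lt hU pf_R6) ?_ ?_)
  · refine PF.ite (PD.lt hV pf_RR) ?_ (PF.ite (PD.lt hV pf_R6) ?_ c0)
    · refine PF.ite ((PD.eq ((hU.mod hn).div c2) ((hV.mod hn).div c2)).and
        (PD.eq (hU.mod c2) (hV.mod c2)).not) ?_ c0
      refine PF.ite (PD.eq (hU.mod c2) c0) ?_ ?_
      · exact PF.ite (PD.eq (hV.div hn) (hU.div hn)) c1
          (PF.ite (PD.eq (hV.div hn) (((hU.div hn).add c1).mod hL)) c3 c0)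
      · exact PF.ite (PD.eq (hU.div hn) (((hV.div hn).add c1).mod hL)) c1
          (PF.ite (PD.eq (hV.div hn) (hU.div hn)) c3 c0)
    · exact PF.ite ((PD.eq ((hgV.mod c6).div c2) c0).and
        ((PD.eq (hU.div hn) ((c2.mul (hgV.div c6)).add (c1.sub (hV.mod c2)))).and (hb hU))) c2 c0
  · refine PF.ite (PD.lt hV pf_RR) ?_ (PF.ite (PD.lt hV pf_R6) ?_ c0)
    · exact PF.ite ((PD.eq ((hgU.mod c6).div c2) c0).and
        ((PD.eq (hV.div hn) ((c2.mul (hgU.div c6)).add (c1.sub (hU.mod c2)))).and (hb hV))) c3 c0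
    · refine PF.ite ((PD.eq (hgU.div c6) (hgV.div c6)).and
        (PD.eq (hU.mod c2) (hV.mod c2)).not) ?_ c0
      have hu := (hgU.mod c6).div c2
      have hv := (hgV.mod c6).div c2
      refine PF.ite (PD.eq (hU.mod c2) c0) ?_ ?_
      · exact PF.ite (PD.eq hv hu) c1 (PF.ite (PD.eq hv ((hu.add c1).mod c3)) c2 c4)
      · exact PF.ite (PD.eq hv ((hu.add c1).mod c3)) c1
          (PF.ite (PD.eq hv ((hu.add c2).mod c3)) c2 c4)
  · refine PF.ite (PD.lt hV pf_R6) c0 (PF.ite ?_ c1 c0)
    exact ((PD.eq (hU.mod c2) c0).and (PD.eq hV (hU.add c1))).or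
      ((PD.eq (hU.mod c2) c1).and (PD.eq hU (hV.add c1)))

theorem pd_pN {U V : List Bool → α → ℕ} (hU : PF U) (hV : PF V) :
    PD (fun x a => pN (nvX x) (mcX x) (U x a) (V x a)) := by
  unfold pN
  have c6 : PF (fun (_ : List Bool) (_ : α) => 6) := PF.const 6
  have c0 : PF (fun (_ : List Bool) (_ : α) => 0) := PF.const 0
  have c3 : PF (fun (_ : List Bool) (_ : α) => 3) := PF.const 3
  exact ((PD.lt hU pf_RR).not.and ((PD.lt hU pf_R6).and ((PD.eq ((hU.sub pf_RR).mod c6) c0).and
      (PD.eq hV (hU.add c3))))).or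
    ((PD.lt hV pf_RR).not.and ((PD.lt hV pf_R6).and ((PD.eq ((hV.sub pf_RR).mod c6) c0).and
      (PD.eq hU (hV.add c3)))))

theorem pd_qN {U V : List Bool → α → ℕ} (hU : PF U) (hV : PF V) :
    PD (fun x a => qN (nvX x) (mcX x) (U x a) (V x a)) := by
  unfold qN
  have c1 : PF (fun (_ : List Bool) (_ : α) => 1) := PF.const 1
  exact ((PD.eq hU pf_R6).and (PD.eq hV (pf_R6.add c1))).or
    ((PD.eq hV pf_R6).and (PD.eq hU (pf_R6.add c1)))

theorem pf_entry : PF (fun (x : List Bool) (p : α × ℕ) => entry x p.2) := by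
  classical
  unfold entry
  have hN : PF (fun (x : List Bool) (_ : α × ℕ) => NX x) := pf_NX
  have hk : PF (fun (_ : List Bool) (p : α × ℕ) => p.2 - 1) := PF.snd.sub (PF.const 1)
  have c0 : PF (fun (_ : List Bool) (_ : α × ℕ) => 0) := PF.const 0
  have c1 : PF (fun (_ : List Bool) (_ : α × ℕ) => 1) := PF.const 1
  have hNN := hN.mul hN
  refine PF.ite (PD.eq PF.snd c0) hN (PF.ite (PD.lt hk hNN) ?_ (PF.ite
    (PD.lt hk (hNN.add hNN)) ?_ ?_))
  · exact pf_matX (hk.div hN) (hk.mod hN)
  · exact PF.ite (pd_pN ((hk.sub hNN).div hN) ((hk.sub hNN).mod hN)) c1 c0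
  · exact PF.ite (pd_qN ((hk.sub (hNN.add hNN)).div hN) ((hk.sub (hNN.add hNN)).mod hN)) c1 c0

end PF

theorem red_polyTime : PolyTime red :=
  polyTime_nats (L := fun x => 1 + 3 * (NX x * NX x)) (B := entry)
    ((PF.const 1).add ((PF.const 3).mul (pf_NX.mul pf_NX))) pf_entry

theorem dec_polyTime : PolyTime dec := by
  apply PFBits.polyTime
  have hs : PF (fun (y : List Bool) (_ : Unit × ℕ) => Nat.sqrt y.length) := PF.len.sqrt
  refine ⟨fun y => Nat.sqrt y.length,
    fun y i => (y.getD (2 * i * Nat.sqrt y.length + (2 * i + 1)) false).toNat,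
    PF.len.sqrt, ?_, fun y => rfl⟩
  exact PF.inp ((((PF.const 2).mul PF.snd).mul hs).add
    (((PF.const 2).mul PF.snd).add (PF.const 1)))

/-- The main result. -/
theorem main (ρ : ℝ) (hρ : 1 ≤ ρ) (h : ∃ A, PolyTime A ∧ ApproxSR ρ A) :
    ∃ B, PolyTime B ∧ Approx2CNFDel ρ B := by
  obtain ⟨A, hA, happ⟩ := h
  refine ⟨fun x => dec (A (red x)), polyTime_comp (polyTime_comp red_polyTime hA) dec_polyTime,
    ?_⟩
  intro n φ z
  have h1 : ∃ M, (instOf φ).IsStable M :=
    ⟨_, MM_stable (compat_best (sl := slOf φ) (fun _ => true))⟩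
  have h2 : 0 < (instOf φ).Q.card := by
    have := Q_card (sl := slOf φ)
    unfold instOf
    omega
  obtain ⟨M, hM, hAM, hopt⟩ := happ _ (instOf φ) h1 h2 (fun M hM => Q_lt hM)
  have h3 := main_ineq ρ φ hM hopt (by linarith) z
  have h4 : (fun i : Fin n => (dec (A (red (encodeCNF φ)))).getD i false) = zOf (muOf M) := by
    funext i
    rw [red_encode, hAM]
    exact dec_encode hM i
  rw [h4]
  exact h3

end Pool.Agent.SRViol
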